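import Pool.Agent.TH57.Thr.Small

set_option autoImplicit false
set_option linter.unusedSectionVars false

/-! The standard involution of a group ring and adjoint matrices. -/

namespace TH6.LF

open Matrix TH57.Thr

section bar

variable {R : Type*} [CommRing R] {G : Type*} [Group G]

/-- The standard involution of the group ring, which sends `g` to its inverse. -/
noncomputable def bar (x : MonoidAlgebra R G) : MonoidAlgebra R G :=
  MonoidAlgebra.mapDomain (fun g => g⁻¹) x

theorem coeff_bar (x : MonoidAlgebra R G) (g : G) : (bar x).coeff g = x.coeff g⁻¹ := by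
  unfold bar
  have h2 : MonoidAlgebra.mapDomain (fun g => g⁻¹) x =
      MonoidAlgebra.mapDomainAddEquiv (R := R) (Equiv.inv G) x := rfl
  rw [h2]
  simp

@[simp] theorem bar_single (g : G) (r : R) :
    bar (MonoidAlgebra.single g r) = MonoidAlgebra.single g⁻¹ r := by
  unfold bar
  rw [MonoidAlgebra.mapDomain_single]

@[simp] theorem bar_zero : bar (0 : MonoidAlgebra R G) = 0 := by
  unfold bar; exact MonoidAlgebra.mapDomain_zero _

theorem bar_add (x y : MonoidAlgebra R G) : bar (x + y) = bar x + bar y := by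
  unfold bar; exact MonoidAlgebra.mapDomain_add _ _ _

theorem bar_neg (x : MonoidAlgebra R G) : bar (-x) = -bar x := by
  ext g; rw [coeff_bar]; simp [coeff_bar]

theorem bar_sub (x y : MonoidAlgebra R G) : bar (x - y) = bar x - bar y := by
  rw [sub_eq_add_neg, bar_add, bar_neg, ← sub_eq_add_neg]

@[simp] theorem bar_bar (x : MonoidAlgebra R G) : bar (bar x) = x := by
  ext g; rw [coeff_bar, coeff_bar, inv_inv]

@[simp] theorem bar_one : bar (1 : MonoidAlgebra R G) = 1 := by
  rw [MonoidAlgebra.one_def, bar_single, inv_one]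

theorem bar_sum {ι : Type*} (s : Finset ι) (f : ι → MonoidAlgebra R G) :
    bar (∑ i ∈ s, f i) = ∑ i ∈ s, bar (f i) := by
  classical
  induction s using Finset.induction_on with
  | empty => simp
  | insert i s hi ih => rw [Finset.sum_insert hi, Finset.sum_insert hi, bar_add, ih]

theorem bar_mul (x y : MonoidAlgebra R G) : bar (x * y) = bar y * bar x := by
  induction x using MonoidAlgebra.induction_linear with
  | zero => simp
  | add x1 x2 h1 h2 => rw [add_mul, bar_add, h1, h2, bar_add, mul_add]
  | single g r =>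
    induction y using MonoidAlgebra.induction_linear with
    | zero => simp
    | add y1 y2 h1 h2 => rw [mul_add, bar_add, h1, h2, bar_add, add_mul]
    | single h s =>
      rw [MonoidAlgebra.single_mul_single, bar_single, bar_single, bar_single,
        MonoidAlgebra.single_mul_single, _root_.mul_inv_rev, mul_comm r s]

theorem bar_zsmul (z : ℤ) (x : MonoidAlgebra R G) : bar (z • x) = z • bar x := by
  let f : MonoidAlgebra R G →+ MonoidAlgebra R G :=
    { toFun := bar, map_zero' := bar_zero, map_add' := bar_add }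
  exact map_zsmul f z x

theorem bar_smul (r : R) (x : MonoidAlgebra R G) : bar (r • x) = r • bar x := by
  ext g; rw [coeff_bar]; simp [coeff_bar]

end bar

section adj

variable {R : Type*} [CommRing R] {G : Type*} [Group G] {ι κ μ : Type*}

/-- The adjoint (conjugate transpose) of a matrix over the group ring, for the involution `bar`. -/
noncomputable def adj (A : Matrix ι κ (MonoidAlgebra R G)) : Matrix κ ι (MonoidAlgebra R G) :=
  fun j i => bar (A i j)

theorem adj_apply (A : Matrix ι κ (MonoidAlgebra R G)) (i : ι) (j : κ) :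
    adj A j i = bar (A i j) := rfl

theorem adj_mul [Fintype κ] (A : Matrix ι κ (MonoidAlgebra R G))
    (B : Matrix κ μ (MonoidAlgebra R G)) : adj (A * B) = adj B * adj A := by
  ext1 j i
  rw [adj_apply, Matrix.mul_apply, Matrix.mul_apply, bar_sum]
  exact Finset.sum_congr rfl fun k _ => by rw [bar_mul]; rfl

theorem adj_add (A B : Matrix ι κ (MonoidAlgebra R G)) : adj (A + B) = adj A + adj B := by
  ext1 j i; exact bar_add _ _

theorem adj_neg (A : Matrix ι κ (MonoidAlgebra R G)) : adj (-A) = -adj A := by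
  ext1 j i; exact bar_neg _

theorem adj_sub (A B : Matrix ι κ (MonoidAlgebra R G)) : adj (A - B) = adj A - adj B := by
  ext1 j i; exact bar_sub _ _

theorem adj_adj (A : Matrix ι κ (MonoidAlgebra R G)) : adj (adj A) = A := by
  ext1 i j; exact bar_bar _

theorem adj_zero : adj (0 : Matrix ι κ (MonoidAlgebra R G)) = 0 := by
  ext1 j i; exact bar_zero

theorem adj_one [DecidableEq ι] : adj (1 : Matrix ι ι (MonoidAlgebra R G)) = 1 := by
  ext1 j i
  rw [adj_apply, Matrix.one_apply, Matrix.one_apply]
  by_cases h : i = j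
  · rw [if_pos h, if_pos h.symm, bar_one]
  · rw [if_neg h, if_neg (Ne.symm h), bar_zero]

theorem adj_fromBlocks {ι' κ' : Type*} (A : Matrix ι κ (MonoidAlgebra R G))
    (B : Matrix ι κ' (MonoidAlgebra R G)) (C : Matrix ι' κ (MonoidAlgebra R G))
    (D : Matrix ι' κ' (MonoidAlgebra R G)) :
    adj (fromBlocks A B C D) = fromBlocks (adj A) (adj C) (adj B) (adj D) := by
  ext1 i j
  rcases i with i | i <;> rcases j with j | j <;> rfl

theorem adj_fromCols {κ' : Type*} (A : Matrix ι κ (MonoidAlgebra R G))
    (B : Matrix ι κ' (MonoidAlgebra R G)) :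
    adj (fromCols A B) = fromRows (adj A) (adj B) := by
  ext1 i j
  rcases i with i | i <;> rfl

theorem adj_fromRows {κ' : Type*} (A : Matrix ι κ (MonoidAlgebra R G))
    (B : Matrix κ' κ (MonoidAlgebra R G)) :
    adj (fromRows A B) = fromCols (adj A) (adj B) := by
  ext1 i j
  rcases j with j | j <;> rfl

theorem adj_zsmul (z : ℤ) (A : Matrix ι κ (MonoidAlgebra R G)) : adj (z • A) = z • adj A := by
  ext1 j i
  rw [adj_apply, Matrix.smul_apply, Matrix.smul_apply, adj_apply]
  exact bar_zsmul z _

theorem adj_submatrix {ι' κ' : Type*} (A : Matrix ι κ (MonoidAlgebra R G)) (e : ι' → ι)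
    (f : κ' → κ) : adj (A.submatrix e f) = (adj A).submatrix f e := rfl

end adj

section real

variable {G : Type} [Group G] {ι κ : Type}

theorem toReal_adj (A : Matrix ι κ (MonoidAlgebra ℤ G)) : toReal (adj A) = adj (toReal A) := by
  ext i j g
  simp only [toReal, Matrix.map_apply, adj_apply, coeff_bar, MonoidAlgebra.coeff_mapRingHom]

theorem toReal_add (A B : Matrix ι κ (MonoidAlgebra ℤ G)) :
    toReal (A + B) = toReal A + toReal B := by
  ext i j g
  simp [toReal]

theorem toReal_zsmul (z : ℤ) (A : Matrix ι κ (MonoidAlgebra ℤ G)) :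
    toReal (z • A) = z • toReal A := by
  ext i j g
  simp [toReal]

/-- the inner product of finitely supported row vectors over `ℝG` -/
noncomputable def ip [Fintype ι] (x y : ι → MonoidAlgebra ℝ G) : ℝ :=
  (∑ i, x i * bar (y i)).coeff 1

variable [Fintype ι] [Fintype κ]

theorem ip_add_left (x y z : ι → MonoidAlgebra ℝ G) : ip (x + y) z = ip x z + ip y z := by
  unfold ip
  rw [← Finsupp.add_apply, ← MonoidAlgebra.coeff_add, ← Finset.sum_add_distrib]
  congr 2
  exact Finset.sum_congr rfl fun i _ => by rw [Pi.add_apply, add_mul]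

theorem ip_comm (x y : ι → MonoidAlgebra ℝ G) : ip x y = ip y x := by
  unfold ip
  have h : (∑ i, y i * bar (x i)) = bar (∑ i, x i * bar (y i)) := by
    rw [bar_sum]
    exact Finset.sum_congr rfl fun i _ => by rw [bar_mul, bar_bar]
  rw [h, coeff_bar, inv_one]

theorem ip_add_right (x y z : ι → MonoidAlgebra ℝ G) : ip x (y + z) = ip x y + ip x z := by
  rw [ip_comm, ip_add_left, ip_comm y, ip_comm z]

theorem ip_smul_left (r : ℝ) (x y : ι → MonoidAlgebra ℝ G) : ip (r • x) y = r * ip x y := by
  unfold ip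
  have h : (∑ i, (r • x) i * bar (y i)) = r • ∑ i, x i * bar (y i) := by
    rw [Finset.smul_sum]
    exact Finset.sum_congr rfl fun i _ => by rw [Pi.smul_apply, smul_mul_assoc]
  rw [h]
  rfl

theorem ip_smul_right (r : ℝ) (x y : ι → MonoidAlgebra ℝ G) : ip x (r • y) = r * ip x y := by
  rw [ip_comm, ip_smul_left, ip_comm]

theorem ip_neg_left (x y : ι → MonoidAlgebra ℝ G) : ip (-x) y = -ip x y := by
  have := ip_smul_left (-1) x y
  rw [neg_one_smul] at this
  rw [this]; ring

theorem ip_neg_right (x y : ι → MonoidAlgebra ℝ G) : ip x (-y) = -ip x y := by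
  rw [ip_comm, ip_neg_left, ip_comm]

theorem ip_zero_left (y : ι → MonoidAlgebra ℝ G) : ip 0 y = 0 := by
  have := ip_smul_left 0 0 y
  rw [zero_smul, zero_mul] at this
  exact this

theorem ip_self (x : ι → MonoidAlgebra ℝ G) : ip x x = normSq x := by
  unfold ip normSq
  rw [MonoidAlgebra.coeff_sum, Finsupp.finsetSum_apply]
  refine Finset.sum_congr rfl fun i _ => ?_
  rw [MonoidAlgebra.coeff_mul_apply_left, Finsupp.sum]
  refine Finset.sum_congr rfl fun g _ => ?_
  rw [coeff_bar]
  simp [sq]

theorem ip_vecMul (x : ι → MonoidAlgebra ℝ G) (M : Matrix ι κ (MonoidAlgebra ℝ G))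
    (y : κ → MonoidAlgebra ℝ G) : ip (x ᵥ* M) y = ip x (y ᵥ* adj M) := by
  unfold ip
  congr 1
  congr 1
  simp only [Matrix.vecMul, dotProduct, bar_sum, Finset.sum_mul, Finset.mul_sum, bar_mul]
  rw [Finset.sum_comm]
  refine Finset.sum_congr rfl fun i _ => Finset.sum_congr rfl fun j _ => ?_
  rw [adj_apply, bar_bar, mul_assoc]

theorem ip_elim {κ' : Type} [Fintype κ'] (x : κ ⊕ κ' → MonoidAlgebra ℝ G)
    (y : κ ⊕ κ' → MonoidAlgebra ℝ G) :
    ip x y = ip (x ∘ Sum.inl) (y ∘ Sum.inl) + ip (x ∘ Sum.inr) (y ∘ Sum.inr) := by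
  unfold ip
  rw [Fintype.sum_sum_type, MonoidAlgebra.coeff_add, Finsupp.add_apply]
  rfl

/-- the arithmetic-geometric mean inequality -/
theorem two_ip_le (x y : ι → MonoidAlgebra ℝ G) (t : ℝ) (ht : 0 < t) :
    2 * |ip x y| ≤ t * normSq x + t⁻¹ * normSq y := by
  have key : ∀ s : ℝ, 0 ≤ t * normSq x + 2 * s * ip x y + s ^ 2 * t⁻¹ * normSq y := by
    intro s
    have h1 : 0 ≤ normSq (t • x + s • y) := normSq_nonneg _
    rw [← ip_self, ip_add_left, ip_add_right, ip_add_right, ip_smul_left, ip_smul_left,
      ip_smul_left, ip_smul_left, ip_smul_right, ip_smul_right, ip_smul_right, ip_smul_right,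
      ip_self, ip_self, ip_comm y x] at h1
    have h2 : t * (t * normSq x) + t * (s * ip x y) + (s * (t * ip x y) + s * (s * normSq y))
        = t * (t * normSq x + 2 * s * ip x y + s ^ 2 * t⁻¹ * normSq y) := by
      field_simp
      ring
    rw [h2] at h1
    exact nonneg_of_mul_nonneg_right h1 ht
  have h1 := key 1
  have h2 := key (-1)
  rcases abs_cases (ip x y) with h | h <;> nlinarith

end real

end TH6.LF
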