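import Pool.Agent.TH57.Thr.Struct
import Pool.Agent.TH57.Thr.Cyc

set_option autoImplicit false
set_option linter.style.haveILetI false
set_option linter.unusedSectionVars false

/-! Matrices with a symmetric pattern of small operator norm over the integral group ring of a
torsion-free group come from cyclic subgroups. -/

namespace TH6.LF

open Matrix SimpleGraph TH57.Thr Subgroup

theorem isCyclic_of_finiteIndex {S : Type*} [Group S]
    (htf : ∀ g : S, ∀ n : ℕ, 0 < n → g ^ n = 1 → g = 1) (K : Subgroup S) (hK : IsCyclic K)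
    (hf : K.FiniteIndex) : IsCyclic S := by
  apply isCyclic_of_zpowers_finiteIndex htf
  intro s hs
  obtain ⟨n, hn, _, hsn⟩ := Subgroup.exists_pow_mem_of_index_ne_zero
    (H := K) (FiniteIndex.index_ne_zero) s
  obtain ⟨k, hk⟩ := hK.exists_generator
  obtain ⟨m, hm⟩ := Subgroup.mem_zpowers_iff.1 (hk ⟨s ^ n, hsn⟩)
  have hm0 : m ≠ 0 := by
    rintro rfl
    have h1 := congrArg Subtype.val hm
    simp only [zpow_zero, OneMemClass.coe_one] at h1
    exact hs (htf s n hn h1.symm)
  -- the subgroup generated by `s ^ n` has finite index in `K`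
  have h1 : ((zpowers s).subgroupOf K).FiniteIndex := by
    have hsurj : Function.Surjective (zpowersHom K k) := by
      intro x
      obtain ⟨z, hz⟩ := Subgroup.mem_zpowers_iff.1 (hk x)
      exact ⟨Multiplicative.ofAdd z, hz⟩
    constructor
    rw [← Subgroup.index_comap_of_surjective _ hsurj]
    have h2 : (zpowers (Multiplicative.ofAdd m)) ≤
        ((zpowers s).subgroupOf K).comap (zpowersHom K k) := by
      rw [zpowers_le, mem_comap, mem_subgroupOf]
      have h3 : zpowersHom K k (Multiplicative.ofAdd m) = k ^ m := rfl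
      rw [h3, hm]
      exact ⟨n, by simp⟩
    have h4 : (zpowers (Multiplicative.ofAdd m)).FiniteIndex := by
      constructor
      have := Int.index_zmultiples m
      intro h5
      apply hm0
      rw [← Int.natAbs_eq_zero, ← this]
      exact h5
    exact (Subgroup.finiteIndex_of_le h2).index_ne_zero
  have h2 : (zpowers s ⊓ K).FiniteIndex := by
    constructor
    rw [← Subgroup.relIndex_mul_index (inf_le_right : zpowers s ⊓ K ≤ K)]
    refine mul_ne_zero ?_ FiniteIndex.index_ne_zero
    rw [Subgroup.inf_relIndex_right]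
    exact h1.index_ne_zero
  exact Subgroup.finiteIndex_of_le (inf_le_left : zpowers s ⊓ K ≤ zpowers s)

variable {G : Type*} [Group G] {ι : Type*}

/-- exchange of rows and columns -/
def sw : Vx G ι ι → Vx G ι ι
  | Sum.inl p => Sum.inr p
  | Sum.inr p => Sum.inl p

section sym

variable (A : Matrix ι ι (MonoidAlgebra ℤ G))
  (hsym : ∀ i j h, (A i j).coeff h ≠ 0 → (A j i).coeff h⁻¹ ≠ 0)

include hsym in
theorem adj_sw (u v : Vx G ι ι) (h : (gr A).Adj u v) : (gr A).Adj (sw u) (sw v) := by
  rw [gr_adj] at h ⊢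
  rcases u with p | p <;> rcases v with q | q
  · exact absurd rfl h
  · simp only [sw, wt] at h ⊢
    have h1 := hsym p.2 q.2 (p.1⁻¹ * q.1) (by simpa using h)
    rw [_root_.mul_inv_rev, inv_inv] at h1
    simpa using h1
  · simp only [sw, wt] at h ⊢
    have h1 := hsym q.2 p.2 (q.1⁻¹ * p.1) (by simpa using h)
    rw [_root_.mul_inv_rev, inv_inv] at h1
    simpa using h1
  · exact absurd rfl h

include hsym in
theorem reachable_sw {u v : Vx G ι ι} (h : (gr A).Reachable u v) :
    (gr A).Reachable (sw u) (sw v) := by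
  let f : gr A →g gr A := ⟨sw, fun h => adj_sw A hsym _ _ h⟩
  exact h.map f

/-- the relation generated by the pattern -/
def Rl (p q : G × ι) : Prop :=
  (gr A).Reachable (Sum.inl p) (Sum.inl q) ∨ (gr A).Reachable (Sum.inl p) (Sum.inr q)

theorem Rl.refl (p : G × ι) : Rl A p p := Or.inl (Reachable.refl _)

include hsym in
theorem Rl.symm {p q : G × ι} (h : Rl A p q) : Rl A q p := by
  rcases h with h | h
  · exact Or.inl h.symm
  · exact Or.inr (reachable_sw A hsym h).symm

include hsym in
theorem Rl.trans {p q r : G × ι} (h : Rl A p q) (h' : Rl A q r) : Rl A p r := by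
  rcases h with h | h <;> rcases h' with h' | h'
  · exact Or.inl (SimpleGraph.Reachable.trans h h')
  · exact Or.inr (SimpleGraph.Reachable.trans h h')
  · exact Or.inr (SimpleGraph.Reachable.trans h (reachable_sw A hsym h'))
  · exact Or.inl (SimpleGraph.Reachable.trans h (reachable_sw A hsym h'))

theorem Rl.mv {p q : G × ι} (g : G) (h : Rl A p q) : Rl A (g * p.1, p.2) (g * q.1, q.2) := by
  rcases h with h | h
  · exact Or.inl (reachable_mv A g h)
  · exact Or.inr (reachable_mv A g h)

/-- the stabiliser of a class -/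
def stb (i : ι) : Subgroup G where
  carrier := {g | Rl A (1, i) (g, i)}
  mul_mem' := by
    intro g h hg hh
    have h1 := Rl.mv A g hh
    simp only [mul_one] at h1
    exact Rl.trans A hsym hg h1
  one_mem' := Rl.refl A _
  inv_mem' := by
    intro g hg
    have h1 := Rl.mv A g⁻¹ hg
    simp only [mul_one, inv_mul_cancel] at h1
    exact Rl.symm A hsym h1

theorem mem_stb (i : ι) (g : G) : g ∈ stb A hsym i ↔ Rl A (1, i) (g, i) := Iff.rfl

theorem stb_cyclic [Fintype ι] [DecidableEq ι]
    (htf : ∀ g : G, ∀ n : ℕ, 0 < n → g ^ n = 1 → g = 1)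
    (c : ℝ) (hc0 : 0 < c) (hc : c ^ 2 < 9 / 2) (hA : NormLE A c) (i : ι) :
    IsCyclic (stb A hsym i) := by
  classical
  have hle : stab A (Sum.inl (1, i)) ≤ stb A hsym i := by
    intro g hg
    rw [mem_stab] at hg
    left
    simpa [TH57.Thr.mv] using hg
  have hcyc := stab_cyclic htf A c hc0 hc hA (Sum.inl (1, i))
  refine isCyclic_of_finiteIndex (S := stb A hsym i) (fun g n hn h => Subtype.ext
    (htf g.1 n hn (by simpa using congrArg Subtype.val h)))
    ((stab A (Sum.inl (1, i))).subgroupOf (stb A hsym i)) ?_ ?_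
  · exact (MulEquiv.isCyclic (Subgroup.subgroupOfEquivOfLe hle)).2 hcyc
  · have hkey : ∀ s t : stb A hsym i, s.1 ∉ stab A (Sum.inl (1, i)) →
        t.1 ∉ stab A (Sum.inl (1, i)) → (s.1)⁻¹ * t.1 ∈ stab A (Sum.inl (1, i)) := by
      have aux : ∀ s : stb A hsym i, s.1 ∉ stab A (Sum.inl (1, i)) →
          (gr A).Reachable (Sum.inl (1, i)) (Sum.inr (s.1, i)) := by
        intro s hs
        rcases s.2 with h | h
        · exact absurd (by rw [mem_stab]; simpa [TH57.Thr.mv] using h) hs
        · exact h
      intro s t hs ht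
      have h1 := aux s hs
      have h2 := aux t ht
      have h3 := reachable_mv A (s.1)⁻¹ (h1.symm.trans h2)
      simp only [TH57.Thr.mv, inv_mul_cancel] at h3
      have h4 := reachable_sw A hsym h3
      rw [mem_stab]
      simpa [TH57.Thr.mv, sw] using h4
    rw [Subgroup.finiteIndex_iff_finite_quotient]
    refine Finite.of_injective (β := Prop)
      (fun x : (stb A hsym i) ⧸ ((stab A (Sum.inl (1, i))).subgroupOf (stb A hsym i)) =>
        x = QuotientGroup.mk 1) ?_
    intro x y hxy
    induction x using QuotientGroup.induction_on with | H s => ?_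
    induction y using QuotientGroup.induction_on with | H t => ?_
    simp only [eq_iff_iff] at hxy
    rw [eq_comm (a := (QuotientGroup.mk s : _ ⧸ _)),
      eq_comm (a := (QuotientGroup.mk t : _ ⧸ _))] at hxy
    rw [QuotientGroup.eq, QuotientGroup.eq] at hxy
    simp only [inv_one, one_mul, mem_subgroupOf] at hxy
    rw [QuotientGroup.eq, mem_subgroupOf]
    by_cases h : s.1 ∈ stab A (Sum.inl (1, i))
    · exact mul_mem (inv_mem h) (hxy.1 h)
    · exact hkey s t h (fun h' => h (hxy.2 h'))

/-- The structure theorem for symmetric patterns. -/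
theorem sym_structure [Fintype ι] [DecidableEq ι]
    (htf : ∀ g : G, ∀ n : ℕ, 0 < n → g ^ n = 1 → g = 1)
    (A : Matrix ι ι (MonoidAlgebra ℤ G))
    (hsym : ∀ i j h, (A i j).coeff h ≠ 0 → (A j i).coeff h⁻¹ ≠ 0)
    (c : ℝ) (hc0 : 0 < c) (hc : c ^ 2 < 9 / 2) (hA : NormLE A c) :
    ∃ (ρ : ι → ι) (u : ι → G) (C : ι → Subgroup G),
      (∀ b, IsCyclic (C b)) ∧ ∀ i j h, (A i j).coeff h ≠ 0 →
        ρ i = ρ j ∧ u i * h * (u j)⁻¹ ∈ C (ρ i) := by
  classical
  let st : Setoid ι :=
    { r := fun p q => ∃ g : G, Rl A (1, p) (g, q)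
      iseqv := by
        refine ⟨fun p => ⟨1, Rl.refl A _⟩, ?_, ?_⟩
        · rintro p q ⟨g, hg⟩
          refine ⟨g⁻¹, ?_⟩
          have := Rl.mv A g⁻¹ hg
          simp only [mul_one, inv_mul_cancel] at this
          exact Rl.symm A hsym this
        · rintro p q r ⟨g, hg⟩ ⟨h, hh⟩
          refine ⟨g * h, Rl.trans A hsym hg ?_⟩
          have := Rl.mv A g hh
          simpa only [mul_one] using this }
  let ρ : ι → ι := fun p => (Quotient.mk st p).out
  have hρ : ∀ p, ∃ g : G, Rl A (1, ρ p) (g, p) := fun p =>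
    Quotient.exact (Quotient.out_eq (Quotient.mk st p))
  choose u hu using hρ
  refine ⟨ρ, u, fun b => stb A hsym b, fun b => stb_cyclic A hsym htf c hc0 hc hA _, ?_⟩
  intro i j h hne
  have hadj : Rl A (1, i) (h, j) := by
    right
    apply SimpleGraph.Adj.reachable
    rw [gr_adj]
    simp only [wt]
    simpa using hne
  have heq : ρ i = ρ j := by
    have : Quotient.mk st i = Quotient.mk st j := Quotient.sound ⟨h, hadj⟩
    simp only [ρ, this]
  refine ⟨heq, ?_⟩
  rw [mem_stb]
  have h1 := hu i
  have h2 := Rl.mv A (u i) hadj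
  have h3 := hu j
  rw [← heq] at h3
  have h4 := Rl.mv A (u i * h * (u j)⁻¹) h3
  simp only [mul_one, inv_mul_cancel_right] at h2 h4
  exact Rl.trans A hsym (Rl.trans A hsym h1 h2) (Rl.symm A hsym h4)

end sym

end TH6.LF
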