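import Pool.Agent.TH6.LF.Bar
import Pool.Agent.TH6.LF.Sym
import Pool.Agent.TH57.Thr.Asm

set_option autoImplicit false
set_option linter.style.haveILetI false
set_option linter.unusedSectionVars false

/-! Quadratic forms over the integral group ring of a torsion-free group whose adjoint has operator
norm less than `3 / √2` are orthogonal sums of forms induced from cyclic subgroups. -/

namespace TH6.LF

open Matrix TH57.Thr

variable {G : Type} [Group G] {ι : Type}

theorem coeff_adj {G : Type*} [Group G] {ι κ : Type*} (M : Matrix ι κ (MonoidAlgebra ℤ G))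
    (i : κ) (j : ι) (g : G) : (adj M i j).coeff g = (M j i).coeff g⁻¹ := coeff_bar _ _

theorem coeff_zsmul' {G : Type*} [Group G] (ε : ℤ) (x : MonoidAlgebra ℤ G) (g : G) :
    (ε • x).coeff g = ε * x.coeff g := by
  rw [MonoidAlgebra.coeff_smul, Finsupp.smul_apply, smul_eq_mul]

theorem coeff_add' {G : Type*} [Group G] (x y : MonoidAlgebra ℤ G) (g : G) :
    (x + y).coeff g = x.coeff g + y.coeff g := by
  rw [MonoidAlgebra.coeff_add, Finsupp.add_apply]

theorem coeff_sub' {G : Type*} [Group G] (x y : MonoidAlgebra ℤ G) (g : G) :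
    (x - y).coeff g = x.coeff g - y.coeff g := by
  rw [MonoidAlgebra.coeff_sub, Finsupp.sub_apply]

/-- a matrix which is skew and has no central part is a difference `χ - ε χ*` -/
theorem exists_alt (hno : ∀ g : G, g = g⁻¹ → g = 1) (ε : ℤ)
    (δ : Matrix ι ι (MonoidAlgebra ℤ G))
    (h1 : ∀ i j g, (δ i j).coeff g + ε * (δ j i).coeff g⁻¹ = 0)
    (h2 : ∀ i, (δ i i).coeff 1 = 0) :
    ∃ χ : Matrix ι ι (MonoidAlgebra ℤ G), δ = χ - ε • adj χ := by
  classical
  let W : (ι × ι × G) → (ι × ι × G) → Prop := WellOrderingRel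
  let χ : Matrix ι ι (MonoidAlgebra ℤ G) := fun i j =>
    .ofCoeff ((δ i j).coeff.filter (fun g => W (i, j, g) (j, i, g⁻¹)))
  have hχ : ∀ i j g, (χ i j).coeff g = if W (i, j, g) (j, i, g⁻¹) then (δ i j).coeff g else 0 := by
    intro i j g
    simp only [χ, Finsupp.filter_apply]
  refine ⟨χ, ?_⟩
  ext i j g
  rw [Matrix.sub_apply, coeff_sub', Matrix.smul_apply, coeff_zsmul', coeff_adj, hχ, hχ, inv_inv]
  have h3 := h1 i j g
  rcases trichotomous_of WellOrderingRel (i, j, g) (j, i, g⁻¹) with h | h | h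
  · have h' : ¬ W (j, i, g⁻¹) (i, j, g) := fun h'' => asymm_of WellOrderingRel h h''
    rw [if_pos h, if_neg h']
    ring
  · simp only [Prod.mk.injEq] at h
    obtain ⟨rfl, _, h4⟩ := h
    have h5 := hno g h4
    subst h5
    rw [inv_one, h2]
    simp
  · have h' : ¬ W (i, j, g) (j, i, g⁻¹) := fun h'' => asymm_of WellOrderingRel h h''
    rw [if_neg h', if_pos h]
    linarith

/-- The diagonal matrix with the group elements `u i` on the diagonal. -/
noncomputable def Dm [DecidableEq ι] (u : ι → G) : Matrix ι ι (MonoidAlgebra ℤ G) :=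
  Matrix.diagonal fun i => MonoidAlgebra.single (u i) 1

/-- The orthogonal sum of the forms `θ a` over the group rings of the subgroups `C a`, induced up
to the group ring of `G`; the summand with index `a` lives on the basis elements `i` with
`ρ i = a`. -/
noncomputable def indSum [DecidableEq ι] (ρ : ι → ι) (C : ι → Subgroup G)
    (θ : ∀ a, Matrix {i // ρ i = a} {i // ρ i = a} (MonoidAlgebra ℤ (C a))) :
    Matrix ι ι (MonoidAlgebra ℤ G) := fun i j =>
  if h : ρ j = ρ i then MonoidAlgebra.mapDomain (C (ρ i)).subtype (θ (ρ i) ⟨i, rfl⟩ ⟨j, h⟩) else 0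

theorem Dm_mul [Fintype ι] [DecidableEq ι] (u : ι → G) (M : Matrix ι ι (MonoidAlgebra ℤ G))
    (i j : ι) (g : G) :
    ((Dm u * M * adj (Dm u)) i j).coeff g = (M i j).coeff ((u i)⁻¹ * g * u j) := by
  have h1 : adj (Dm u) = Matrix.diagonal fun i => MonoidAlgebra.single (u i)⁻¹ (1 : ℤ) := by
    ext1 i j
    rw [adj_apply, Dm, Matrix.diagonal_apply, Matrix.diagonal_apply]
    by_cases h : i = j
    · subst h; simp
    · rw [if_neg h, if_neg (Ne.symm h), bar_zero]
  rw [h1, Matrix.mul_diagonal, Dm, Matrix.diagonal_mul, MonoidAlgebra.coeff_mul_single_apply,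
    MonoidAlgebra.coeff_single_mul_apply]
  simp [mul_assoc]

theorem Dm_mul_inv [Fintype ι] [DecidableEq ι] (u : ι → G) :
    Dm u * adj (Dm u) = 1 ∧ adj (Dm u) * Dm u = 1 := by
  have h1 : adj (Dm u) = Matrix.diagonal fun i => MonoidAlgebra.single (u i)⁻¹ (1 : ℤ) := by
    ext1 i j
    rw [adj_apply, Dm, Matrix.diagonal_apply, Matrix.diagonal_apply]
    by_cases h : i = j
    · subst h; simp
    · rw [if_neg h, if_neg (Ne.symm h), bar_zero]
  rw [h1, Dm, Matrix.diagonal_mul_diagonal, Matrix.diagonal_mul_diagonal]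
  constructor <;>
  · ext1 i j
    rw [Matrix.diagonal_apply, Matrix.one_apply]
    split_ifs <;> simp [MonoidAlgebra.single_mul_single, MonoidAlgebra.one_def]

theorem coeff_map_comap (C : Subgroup G) [DecidablePred (· ∈ C)] (x : MonoidAlgebra ℤ G) (g : G) :
    (MonoidAlgebra.mapDomain C.subtype
      (MonoidAlgebra.comapDomain C.subtype C.subtype_injective x)).coeff g
      = if g ∈ C then x.coeff g else 0 := by
  rw [MonoidAlgebra.coeff_mapDomain, MonoidAlgebra.coeff_comapDomain]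
  split_ifs with h
  · have := Finsupp.mapDomain_apply C.subtype_injective
      (x.coeff.comapDomain C.subtype C.subtype_injective.injOn) ⟨g, h⟩
    simpa using this
  · apply Finsupp.mapDomain_of_notMem_range
    simpa using h

theorem mul_block {R : Type} [Ring R] [Fintype ι] [DecidableEq ι] (ρ : ι → ι) (a : ι)
    (B N : Matrix ι ι R) (hB : ∀ i j, B i j ≠ 0 → ρ i = ρ j) (h : B * N = 1) :
    (B.submatrix (Subtype.val : {i // ρ i = a} → ι) (Subtype.val : {i // ρ i = a} → ι))
      * (N.submatrix Subtype.val Subtype.val) = 1 := by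
  ext1 i k
  rw [Matrix.mul_apply]
  simp only [Matrix.submatrix_apply]
  have h1 := congrFun (congrFun h i.1) k.1
  rw [Matrix.mul_apply, ← Fintype.sum_subtype_add_sum_subtype (fun j => ρ j = a)] at h1
  have h2 : ∑ j : {j // ¬ ρ j = a}, B i.1 j.1 * N j.1 k.1 = 0 := by
    refine Finset.sum_eq_zero fun j _ => ?_
    by_cases h3 : B i.1 j.1 = 0
    · rw [h3, zero_mul]
    · exact absurd ((hB _ _ h3).symm.trans i.2) j.2
  rw [h2, add_zero] at h1
  rw [h1, Matrix.one_apply, Matrix.one_apply]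
  simp [Subtype.ext_iff]

theorem mul_block' {R : Type} [Ring R] [Fintype ι] [DecidableEq ι] (ρ : ι → ι) (a : ι)
    (B N : Matrix ι ι R) (hB : ∀ i j, B i j ≠ 0 → ρ i = ρ j) (h : N * B = 1) :
    (N.submatrix (Subtype.val : {i // ρ i = a} → ι) (Subtype.val : {i // ρ i = a} → ι))
      * (B.submatrix Subtype.val Subtype.val) = 1 := by
  ext1 i k
  rw [Matrix.mul_apply]
  simp only [Matrix.submatrix_apply]
  have h1 := congrFun (congrFun h i.1) k.1
  rw [Matrix.mul_apply, ← Fintype.sum_subtype_add_sum_subtype (fun j => ρ j = a)] at h1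
  have h2 : ∑ j : {j // ¬ ρ j = a}, N i.1 j.1 * B j.1 k.1 = 0 := by
    refine Finset.sum_eq_zero fun j _ => ?_
    by_cases h3 : B j.1 k.1 = 0
    · rw [h3, mul_zero]
    · exact absurd ((hB _ _ h3).trans k.2) j.2
  rw [h2, add_zero] at h1
  rw [h1, Matrix.one_apply, Matrix.one_apply]
  simp [Subtype.ext_iff]

/-- matrices over the group ring of a subgroup which become invertible over the group ring of the
group are invertible -/
theorem isUnit_of_isUnit_map (C : Subgroup G) {κ : Type} [Fintype κ] [DecidableEq κ]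
    (M : Matrix κ κ (MonoidAlgebra ℤ C))
    (hM : IsUnit (mpm (MonoidAlgebra.mapDomainRingHom ℤ C.subtype) M)) : IsUnit M := by
  obtain ⟨v, hv⟩ := hM
  have hinj : Function.Injective (mpm (κ := κ)
      (MonoidAlgebra.mapDomainRingHom ℤ C.subtype)) := by
    intro X Y hXY
    ext1 i j
    have h1 := congrFun (congrFun hXY i) j
    exact MonoidAlgebra.mapDomain_injective C.subtype_injective h1
  obtain ⟨P, Q, hPQ, hP⟩ := lift_unit C.subtype C.subtype_injective v (fun i j g hg => by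
    rw [hv] at hg
    by_contra hcon
    apply hg
    change (MonoidAlgebra.mapDomain C.subtype (M i j)).coeff g = 0
    rw [MonoidAlgebra.coeff_mapDomain]
    apply Finsupp.mapDomain_of_notMem_range
    simpa using hcon)
  have hPM : P = M := hinj (by rw [hP, hv])
  subst hPM
  have h2 : (v : Matrix κ κ (MonoidAlgebra ℤ G))
      * mpm (MonoidAlgebra.mapDomainRingHom ℤ C.subtype) Q = 1 := by
    rw [← hP, ← map_mul, hPQ, map_one]
  have h3 : mpm (MonoidAlgebra.mapDomainRingHom ℤ C.subtype) Q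
      = (↑v⁻¹ : Matrix κ κ (MonoidAlgebra ℤ G)) := by
    rw [← Units.inv_mul_cancel_left v (mpm (MonoidAlgebra.mapDomainRingHom ℤ C.subtype) Q), h2,
      mul_one]
  have h4 : Q * P = 1 := hinj (by rw [map_mul, map_one, h3, hP, Units.inv_mul])
  exact ⟨⟨P, Q, hPQ, h4⟩, rfl⟩

/-- The main theorem on forms below the threshold. -/
theorem forms_below [Fintype ι] [DecidableEq ι]
    (htf : ∀ g : G, ∀ n : ℕ, 0 < n → g ^ n = 1 → g = 1) (ε : ℤ) (hε : ε = 1 ∨ ε = -1)
    (c : ℝ) (hc0 : 0 < c) (hc : c ^ 2 < 9 / 2)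
    (ψ : Matrix ι ι (MonoidAlgebra ℤ G)) (hψ : NormLE (ψ + ε • adj ψ) c) :
    ∃ (ρ : ι → ι) (u : ι → G) (C : ι → Subgroup G)
      (θ : ∀ a, Matrix {i // ρ i = a} {i // ρ i = a} (MonoidAlgebra ℤ (C a)))
      (χ : Matrix ι ι (MonoidAlgebra ℤ G)),
      (∀ a, IsCyclic (C a)) ∧
      Dm u * ψ * adj (Dm u) = indSum ρ C θ + (χ - ε • adj χ) ∧
      (IsUnit (ψ + ε • adj ψ) → ∀ a, IsUnit (θ a + ε • adj (θ a))) := by
  classical
  have hεε : ε * ε = 1 := by rcases hε with rfl | rfl <;> norm_num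
  have hε0 : ε ≠ 0 := by rcases hε with rfl | rfl <;> norm_num
  have hA : ∀ i j g, ((ψ + ε • adj ψ) i j).coeff g
      = (ψ i j).coeff g + ε * (ψ j i).coeff g⁻¹ := by
    intro i j g
    rw [Matrix.add_apply, coeff_add', Matrix.smul_apply, coeff_zsmul', coeff_adj]
  have hsym : ∀ i j h, ((ψ + ε • adj ψ) i j).coeff h ≠ 0 →
      ((ψ + ε • adj ψ) j i).coeff h⁻¹ ≠ 0 := by
    intro i j h hne h0
    apply hne
    rw [hA] at h0 ⊢
    rw [inv_inv] at h0
    have h1 : (ψ i j).coeff h + ε * (ψ j i).coeff h⁻¹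
        = ε * ((ψ j i).coeff h⁻¹ + ε * (ψ i j).coeff h) := by
      linear_combination (-(ψ i j).coeff h) * hεε
    rw [h1, h0, mul_zero]
  obtain ⟨ρ, u, C, hC, hstr⟩ := sym_structure htf (ψ + ε • adj ψ) hsym c hc0 hc hψ
  set φ := Dm u * ψ * adj (Dm u) with hφ
  have hφc : ∀ i j g, (φ i j).coeff g = (ψ i j).coeff ((u i)⁻¹ * g * u j) := Dm_mul u ψ
  have hB : ∀ i j g, (φ i j).coeff g + ε * (φ j i).coeff g⁻¹ ≠ 0 → ρ i = ρ j ∧ g ∈ C (ρ i) := by
    intro i j g hne
    have h1 := hstr i j ((u i)⁻¹ * g * u j) (by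
      rw [hA]
      rw [hφc, hφc] at hne
      have h2 : (u j)⁻¹ * g⁻¹ * u i = ((u i)⁻¹ * g * u j)⁻¹ := by group
      rwa [h2] at hne)
    have h3 : u i * ((u i)⁻¹ * g * u j) * (u j)⁻¹ = g := by group
    rwa [h3] at h1
  let θ : ∀ a, Matrix {i // ρ i = a} {i // ρ i = a} (MonoidAlgebra ℤ (C a)) := fun a i j =>
    MonoidAlgebra.comapDomain (C a).subtype (C a).subtype_injective (φ i.1 j.1)
  have hS : ∀ i j g, ((indSum ρ C θ) i j).coeff g
      = if ρ j = ρ i ∧ g ∈ C (ρ i) then (φ i j).coeff g else 0 := by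
    intro i j g
    unfold indSum
    by_cases h : ρ j = ρ i
    · rw [dif_pos h]
      change (MonoidAlgebra.mapDomain (C (ρ i)).subtype (MonoidAlgebra.comapDomain
        (C (ρ i)).subtype (C (ρ i)).subtype_injective (φ i j))).coeff g = _
      rw [coeff_map_comap]
      by_cases h2 : g ∈ C (ρ i)
      · rw [if_pos h2, if_pos ⟨h, h2⟩]
      · rw [if_neg h2, if_neg (fun h3 => h2 h3.2)]
    · rw [dif_neg h, if_neg (fun h3 => h h3.1)]
      rfl
  have hsymm : ∀ i j g, (ρ j = ρ i ∧ g ∈ C (ρ i)) ↔ (ρ i = ρ j ∧ g⁻¹ ∈ C (ρ j)) := by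
    intro i j g
    constructor
    · rintro ⟨h1, h2⟩
      exact ⟨h1.symm, by rw [h1]; exact inv_mem h2⟩
    · rintro ⟨h1, h2⟩
      refine ⟨h1.symm, ?_⟩
      rw [h1]
      have := inv_mem h2
      rwa [inv_inv] at this
  obtain ⟨χ, hχ⟩ := exists_alt (fun g hg => htf g 2 two_pos (by
      rw [sq]; nth_rewrite 2 [hg]; exact mul_inv_cancel g)) ε (φ - indSum ρ C θ)
    (fun i j g => by
      rw [Matrix.sub_apply, Matrix.sub_apply, coeff_sub', coeff_sub', hS, hS]
      by_cases h : ρ j = ρ i ∧ g ∈ C (ρ i)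
      · rw [if_pos h, if_pos ((hsymm i j g).1 h)]
        ring
      · rw [if_neg h, if_neg (fun h' => h ((hsymm i j g).2 h'))]
        by_contra hcon
        have h3 := hB i j g (by simpa using hcon)
        exact h ⟨h3.1.symm, h3.2⟩)
    (fun i => by
      rw [Matrix.sub_apply, coeff_sub', hS, if_pos ⟨rfl, one_mem _⟩, sub_self])
  refine ⟨ρ, u, C, θ, χ, hC, ?_, ?_⟩
  · rw [← hχ]
    abel
  · intro hunit a
    -- the matrix of the adjoint of `φ`
    set B := φ + ε • adj φ with hBd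
    have hBA : B = Dm u * (ψ + ε • adj ψ) * adj (Dm u) := by
      rw [hBd, hφ, adj_mul, adj_mul, adj_adj, Matrix.mul_add, Matrix.add_mul,
        Matrix.mul_smul, Matrix.smul_mul, Matrix.mul_assoc (Dm u) (adj ψ)]
    have hDu := Dm_mul_inv u
    obtain ⟨v, hv⟩ := hunit
    have hBN : B * (Dm u * (↑v⁻¹ : Matrix ι ι (MonoidAlgebra ℤ G)) * adj (Dm u)) = 1 := by
      rw [hBA, ← hv]
      calc Dm u * (v : Matrix ι ι (MonoidAlgebra ℤ G)) * adj (Dm u)
            * (Dm u * (↑v⁻¹ : Matrix ι ι (MonoidAlgebra ℤ G)) * adj (Dm u))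
          = Dm u * ((v : Matrix ι ι (MonoidAlgebra ℤ G)) * ((adj (Dm u) * Dm u)
            * (↑v⁻¹ : Matrix ι ι (MonoidAlgebra ℤ G)))) * adj (Dm u) := by
              simp only [Matrix.mul_assoc]
        _ = 1 := by
              rw [hDu.2, Matrix.one_mul, Units.mul_inv, Matrix.mul_one, hDu.1]
    have hNB : (Dm u * (↑v⁻¹ : Matrix ι ι (MonoidAlgebra ℤ G)) * adj (Dm u)) * B = 1 := by
      rw [hBA, ← hv]
      calc (Dm u * (↑v⁻¹ : Matrix ι ι (MonoidAlgebra ℤ G)) * adj (Dm u))
            * (Dm u * (v : Matrix ι ι (MonoidAlgebra ℤ G)) * adj (Dm u))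
          = Dm u * ((↑v⁻¹ : Matrix ι ι (MonoidAlgebra ℤ G)) * ((adj (Dm u) * Dm u)
            * (v : Matrix ι ι (MonoidAlgebra ℤ G)))) * adj (Dm u) := by
              simp only [Matrix.mul_assoc]
        _ = 1 := by
              rw [hDu.2, Matrix.one_mul, Units.inv_mul, Matrix.mul_one, hDu.1]
    have hBc : ∀ i j g, (B i j).coeff g = (φ i j).coeff g + ε * (φ j i).coeff g⁻¹ := by
      intro i j g
      rw [hBd, Matrix.add_apply, coeff_add', Matrix.smul_apply, coeff_zsmul', coeff_adj]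
    have hBρ : ∀ i j, B i j ≠ 0 → ρ i = ρ j := by
      intro i j hne
      by_contra hcon
      apply hne
      ext g
      by_contra h0
      rw [MonoidAlgebra.coeff_zero, Finsupp.coe_zero, Pi.zero_apply, hBc] at h0
      exact hcon (hB i j g h0).1
    have hblk : mpm (MonoidAlgebra.mapDomainRingHom ℤ (C a).subtype) (θ a + ε • adj (θ a))
        = B.submatrix Subtype.val Subtype.val := by
      ext i j g
      change (MonoidAlgebra.mapDomain (C a).subtype ((θ a + ε • adj (θ a)) i j)).coeff g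
        = (B i.1 j.1).coeff g
      have e1 : (θ a + ε • adj (θ a)) i j = MonoidAlgebra.comapDomain (C a).subtype
          (C a).subtype_injective (B i.1 j.1) := by
        ext k
        rw [Matrix.add_apply, coeff_add', Matrix.smul_apply, coeff_zsmul', coeff_adj]
        simp only [θ, MonoidAlgebra.coeff_comapDomain, Finsupp.comapDomain_apply]
        rw [hBc]
        rfl
      rw [e1, coeff_map_comap]
      split_ifs with h
      · rfl
      · by_contra h0
        apply h
        have h0' : (B i.1 j.1).coeff g ≠ 0 := fun h' => h0 h'.symm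
        rw [hBc] at h0'
        have := (hB i.1 j.1 g h0').2
        rwa [i.2] at this
    apply isUnit_of_isUnit_map
    rw [hblk]
    exact ⟨⟨_, _, mul_block ρ a B _ hBρ hBN, mul_block' ρ a B _ hBρ hNB⟩, rfl⟩

end TH6.LF
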