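import Pool.Agent.TH6.LF.Form1

set_option autoImplicit false
set_option linter.unusedSectionVars false
set_option linter.style.haveILetI false

/-! Every quadratic form of even rank over `ℤΓ` is, after adding a hyperbolic form, isometric to a
form at distance at most `√2` from the hyperbolic form. -/

namespace TH6.LF

open Matrix TH57.Thr

variable {G : Type} [Group G]

/-- The standard hyperbolic form. -/
def hyp (R : Type) [Ring R] (κ : Type) [DecidableEq κ] : Matrix (κ ⊕ κ) (κ ⊕ κ) R :=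
  fromBlocks 0 1 0 0

/-- A linear model of the matrix `B`. -/
def ModD (β : ℝ) {p n : Type} [Fintype p] [Fintype n]
    (B : Matrix p n (MonoidAlgebra ℤ G)) : Prop :=
  ∃ (q : Type) (_ : Fintype q) (_ : DecidableEq q) (X : Matrix p q (MonoidAlgebra ℤ G))
    (Y : Matrix q n (MonoidAlgebra ℤ G)) (Z W : Matrix q q (MonoidAlgebra ℤ G)),
    1 + Z ∈ El (R := MonoidAlgebra ℤ G) q ∧ (1 + Z) * W = 1 ∧ W * (1 + Z) = 1 ∧
    -(X * W * Y) = B ∧ 3 ≤ Fintype.card q ∧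
    ∀ (x : p → MonoidAlgebra ℝ G) (y : n → MonoidAlgebra ℝ G) (a b : q → MonoidAlgebra ℝ G),
      Real.sqrt 2 * (2 * |ip (x ᵥ* toReal X) b + ip (a ᵥ* toReal Z) b + ip (a ᵥ* toReal Y) y|) ≤
        β * normSq x + normSq y + 2 * (normSq a + normSq b)

section mod

variable {p n m : Type} [Fintype p] [Fintype n] [Fintype m] [DecidableEq p] [DecidableEq n]
  [DecidableEq m]

theorem sqrt2_pos : 0 < Real.sqrt 2 := Real.sqrt_pos.2 two_pos

theorem sqrt2_sq : Real.sqrt 2 ^ 2 = 2 := Real.sq_sqrt two_pos.le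

theorem modD_base (B : Matrix p n (MonoidAlgebra ℤ G)) (hB : NS B 2) : ModD 2 B := by
  refine ⟨n ⊕ Fin 3, inferInstance, inferInstance, fromCols B 0, fromRows (-1) 0, 0, 1,
    by rw [add_zero]; exact one_mem _, by simp, by simp, ?_, by simp, ?_⟩
  · rw [Matrix.mul_one, Matrix.fromCols_mul_fromRows]
    simp
  · intro x y a b
    have e1 : x ᵥ* toReal (fromCols B (0 : Matrix p (Fin 3) (MonoidAlgebra ℤ G)))
        = Sum.elim (x ᵥ* toReal B) 0 := by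
      funext j
      rcases j with j | j <;> simp [Matrix.vecMul, dotProduct, toReal]
    have e3 : a ᵥ* toReal (fromRows (-1 : Matrix n n (MonoidAlgebra ℤ G))
        (0 : Matrix (Fin 3) n (MonoidAlgebra ℤ G))) = -(a ∘ Sum.inl) := by
      have h1 : toReal (fromRows (-1 : Matrix n n (MonoidAlgebra ℤ G))
        (0 : Matrix (Fin 3) n (MonoidAlgebra ℤ G))) = fromRows (-1) 0 := by
        ext i j
        rcases i with i | i
        · simp only [toReal, Matrix.map_apply, fromRows_apply_inl, Matrix.neg_apply,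
            Matrix.one_apply]
          split_ifs <;> simp
        · simp [toReal]
      rw [h1, Matrix.vecMul_fromRows, Matrix.vecMul_neg, Matrix.vecMul_one, Matrix.vecMul_zero,
        add_zero]
    rw [e1, toReal_zero, Matrix.vecMul_zero, e3, ip_elim, ip_zero_left]
    have e4 : (Sum.elim (x ᵥ* toReal B) (0 : Fin 3 → MonoidAlgebra ℝ G)) ∘ Sum.inl
        = x ᵥ* toReal B := rfl
    have e5 : (Sum.elim (x ᵥ* toReal B) (0 : Fin 3 → MonoidAlgebra ℝ G)) ∘ Sum.inr = 0 := rfl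
    rw [e4, e5, ip_zero_left, ip_neg_left, normSq_sum a, normSq_sum b]
    set a1 := a ∘ Sum.inl
    set a2 := a ∘ Sum.inr
    set b1 := b ∘ Sum.inl
    set b2 := b ∘ Sum.inr
    have f1 := rip sqrt2_pos sqrt2_sq (x ᵥ* toReal B) b1 1 one_pos
    have f2 := rip sqrt2_pos sqrt2_sq a1 y 2 two_pos
    have f5 := hB x
    have g1 := normSq_nonneg a2
    have g2 := normSq_nonneg b2
    have habs : |ip (x ᵥ* toReal B) b1 + 0 + 0 + -ip a1 y| ≤
        |ip (x ᵥ* toReal B) b1| + |ip a1 y| := by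
      rw [add_zero, add_zero]
      have t1 := abs_add_le (ip (x ᵥ* toReal B) b1) (-ip a1 y)
      rwa [abs_neg] at t1
    have hm := mul_le_mul_of_nonneg_left habs (show 0 ≤ Real.sqrt 2 * 2 by positivity)
    norm_num at f1 f2
    nlinarith

theorem modD_step {β w : ℝ} (hβ : β ≤ 2) (P : Matrix m p (MonoidAlgebra ℤ G)) (hP : NS P w)
    (B : Matrix p n (MonoidAlgebra ℤ G)) (h : ModD β B) : ModD w (P * B) := by
  obtain ⟨q, i1, i2, X, Y, Z, W, h1, h2, h3, h4, h5, h6⟩ := h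
  have hZ : (1 + fromBlocks 0 X 0 Z : Matrix (p ⊕ q) (p ⊕ q) (MonoidAlgebra ℤ G))
      = fromBlocks 1 X 0 (1 + Z) := by
    rw [← Matrix.fromBlocks_one, Matrix.fromBlocks_add]
    simp
  refine ⟨p ⊕ q, inferInstance, inferInstance, fromCols (-P) 0, fromRows 0 Y,
    fromBlocks 0 X 0 Z, fromBlocks 1 (-(X * W)) 0 W, ?_, ?_, ?_, ?_, ?_, ?_⟩
  · have e : fromBlocks 1 X 0 (1 + Z) = fromBlocks (1 : Matrix p p (MonoidAlgebra ℤ G)) 0 0 (1 + Z)
        * (1 + fromBlocks 0 X 0 0) := by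
      rw [← Matrix.fromBlocks_one, Matrix.fromBlocks_add, Matrix.fromBlocks_multiply]
      simp
    rw [hZ, e]
    refine mul_mem (el_ext' (1 + Z) h1)
      (el_unip (Finset.univ.filter fun v : p ⊕ q => v.isLeft) _ ?_)
    rintro (i | i) (j | j) h <;> simp at h ⊢
  · rw [hZ, Matrix.fromBlocks_multiply, ← Matrix.fromBlocks_one]
    simp [h2]
  · rw [hZ, Matrix.fromBlocks_multiply, ← Matrix.fromBlocks_one]
    simp [h3, Matrix.mul_assoc]
  · rw [Matrix.fromCols_mul_fromBlocks, Matrix.fromCols_mul_fromRows, ← h4]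
    simp [Matrix.mul_assoc]
  · rw [Fintype.card_sum]; omega
  · intro x y a b
    have e1 : x ᵥ* toReal (fromCols (-P) (0 : Matrix m q (MonoidAlgebra ℤ G)))
        = Sum.elim (-(x ᵥ* toReal P)) 0 := by
      have h0 : toReal (fromCols (-P) (0 : Matrix m q (MonoidAlgebra ℤ G)))
          = fromCols (-toReal P) 0 := by
        ext i j
        rcases j with j | j <;> simp [toReal]
      rw [h0, Matrix.vecMul_fromCols, Matrix.vecMul_neg, Matrix.vecMul_zero]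
    have e2 : a ᵥ* toReal (fromBlocks (0 : Matrix p p (MonoidAlgebra ℤ G)) X 0 Z)
        = Sum.elim (0 : p → MonoidAlgebra ℝ G) ((a ∘ Sum.inl) ᵥ* toReal X + (a ∘ Sum.inr) ᵥ* toReal Z) := by
      rw [toReal_fromBlocks, toReal_zero, toReal_zero]
      conv_lhs => rw [← Sum.elim_comp_inl_inr a]
      rw [Matrix.vecMul_fromBlocks]
      simp
    have e3 : a ᵥ* toReal (fromRows (0 : Matrix p n (MonoidAlgebra ℤ G)) Y)
        = (a ∘ Sum.inr) ᵥ* toReal Y := by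
      have h0 : toReal (fromRows (0 : Matrix p n (MonoidAlgebra ℤ G)) Y)
          = fromRows 0 (toReal Y) := by
        ext i j
        rcases i with i | i <;> simp [toReal]
      rw [h0, Matrix.vecMul_fromRows]
      simp
    rw [e1, e2, e3, ip_elim, ip_elim (Sum.elim _ _) b]
    have e4 : (Sum.elim (-(x ᵥ* toReal P)) (0 : q → MonoidAlgebra ℝ G)) ∘ Sum.inl
        = -(x ᵥ* toReal P) := rfl
    have e5 : (Sum.elim (-(x ᵥ* toReal P)) (0 : q → MonoidAlgebra ℝ G)) ∘ Sum.inr = 0 := rfl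
    have e6 : (Sum.elim (0 : p → MonoidAlgebra ℝ G)
        ((a ∘ Sum.inl) ᵥ* toReal X + (a ∘ Sum.inr) ᵥ* toReal Z)) ∘ Sum.inl = 0 := rfl
    have e7 : (Sum.elim (0 : p → MonoidAlgebra ℝ G)
        ((a ∘ Sum.inl) ᵥ* toReal X + (a ∘ Sum.inr) ᵥ* toReal Z))
        ∘ Sum.inr = (a ∘ Sum.inl) ᵥ* toReal X + (a ∘ Sum.inr) ᵥ* toReal Z := rfl
    rw [e4, e5, e6, e7, ip_zero_left, ip_zero_left, ip_neg_left, normSq_sum a, normSq_sum b,
      ip_add_left]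
    set a1 := a ∘ Sum.inl
    set a2 := a ∘ Sum.inr
    set b1 := b ∘ Sum.inl
    set b2 := b ∘ Sum.inr
    have f0 := h6 a1 y a2 b2
    have f1 := rip sqrt2_pos sqrt2_sq (x ᵥ* toReal P) b1 1 one_pos
    have f2 := hP x
    have f3 := mul_le_mul_of_nonneg_right hβ (normSq_nonneg a1)
    have habs : |-ip (x ᵥ* toReal P) b1 + 0 + (0 + (ip (a1 ᵥ* toReal X) b2
        + ip (a2 ᵥ* toReal Z) b2)) + ip (a2 ᵥ* toReal Y) y| ≤
        |ip (x ᵥ* toReal P) b1| + |ip (a1 ᵥ* toReal X) b2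
        + ip (a2 ᵥ* toReal Z) b2 + ip (a2 ᵥ* toReal Y) y| := by
      have t1 := abs_add_le (-ip (x ᵥ* toReal P) b1) (ip (a1 ᵥ* toReal X) b2
        + ip (a2 ᵥ* toReal Z) b2 + ip (a2 ᵥ* toReal Y) y)
      rw [abs_neg] at t1
      have t3 : -ip (x ᵥ* toReal P) b1 + 0 + (0 + (ip (a1 ᵥ* toReal X) b2
        + ip (a2 ᵥ* toReal Z) b2)) + ip (a2 ᵥ* toReal Y) y
        = -ip (x ᵥ* toReal P) b1 + (ip (a1 ᵥ* toReal X) b2
        + ip (a2 ᵥ* toReal Z) b2 + ip (a2 ᵥ* toReal Y) y) := by ring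
      rw [t3]
      exact t1
    have hm := mul_le_mul_of_nonneg_left habs (show 0 ≤ Real.sqrt 2 * 2 by positivity)
    norm_num at f1
    nlinarith

theorem modD_of_Pr : ∀ (k : ℕ) (p n : Type) [Fintype p] [Fintype n] [DecidableEq p]
    [DecidableEq n] (B : Matrix p n (MonoidAlgebra ℤ G)), Pr k p n B → ModD 2 B := by
  intro k
  induction k with
  | zero =>
    intro p n _ _ _ _ B h
    exact modD_base B h
  | succ k ih =>
    intro p n _ _ _ _ B h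
    obtain ⟨r', i1, i2, P, C, hP, hC, rfl⟩ := h
    exact modD_step le_rfl P hP C (ih r' n C hC)

theorem modD_all (B : Matrix p n (MonoidAlgebra ℤ G)) : ModD 1 B := by
  obtain ⟨k, hk⟩ := Pr_all B
  have h := modD_step le_rfl (1 : Matrix p p (MonoidAlgebra ℤ G)) NS_one B (modD_of_Pr k p n B hk)
  rwa [Matrix.one_mul] at h

end mod

section form

variable {ι : Type} [Fintype ι] [DecidableEq ι]

/-- the isometry of a linear model -/
theorem form_conj {q : Type} [Fintype q] [DecidableEq q] (ψ : Matrix ι ι (MonoidAlgebra ℤ G))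
    (X : Matrix ι q (MonoidAlgebra ℤ G)) (Y : Matrix q ι (MonoidAlgebra ℤ G))
    (Z W : Matrix q q (MonoidAlgebra ℤ G)) (hZW : Z * W = 1) :
    (fromBlocks 1 (fromCols X (adj (W * Y))) 0 (fromBlocks Z 0 0 1) :
        Matrix (ι ⊕ (q ⊕ q)) (ι ⊕ (q ⊕ q)) (MonoidAlgebra ℤ G)) * addHyp q ψ
      * adj (fromBlocks 1 (fromCols X (adj (W * Y))) 0 (fromBlocks Z 0 0 1) :
        Matrix (ι ⊕ (q ⊕ q)) (ι ⊕ (q ⊕ q)) (MonoidAlgebra ℤ G))
      = fromBlocks (ψ + X * W * Y) (fromCols 0 X) (fromRows Y 0) (fromBlocks 0 Z 0 0) := by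
  rw [addHyp, adj_fromBlocks, adj_fromBlocks, adj_fromCols, adj_adj, adj_one, adj_zero,
    adj_zero, adj_one, Matrix.fromBlocks_multiply, Matrix.fromBlocks_multiply]
  have e1 : (fromCols X (adj (W * Y)) : Matrix ι (q ⊕ q) (MonoidAlgebra ℤ G))
      * (fromBlocks (0 : Matrix q q (MonoidAlgebra ℤ G)) (1 : Matrix q q (MonoidAlgebra ℤ G))
        (0 : Matrix q q (MonoidAlgebra ℤ G)) (0 : Matrix q q (MonoidAlgebra ℤ G))) =
      fromCols 0 X := by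
    rw [Matrix.fromCols_mul_fromBlocks]; simp
  have e2 : fromBlocks Z (0 : Matrix q q (MonoidAlgebra ℤ G))
      (0 : Matrix q q (MonoidAlgebra ℤ G)) (1 : Matrix q q (MonoidAlgebra ℤ G))
      * fromBlocks (0 : Matrix q q (MonoidAlgebra ℤ G)) (1 : Matrix q q (MonoidAlgebra ℤ G))
        (0 : Matrix q q (MonoidAlgebra ℤ G)) (0 : Matrix q q (MonoidAlgebra ℤ G))
      = fromBlocks 0 Z 0 0 := by
    rw [Matrix.fromBlocks_multiply]; simp
  simp only [Matrix.one_mul, Matrix.mul_zero, Matrix.zero_mul, add_zero, zero_add, e1, e2,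
    Matrix.mul_one]
  have e3 : fromCols (0 : Matrix ι q (MonoidAlgebra ℤ G)) X
      * fromRows (adj X) (W * Y) = X * W * Y := by
    rw [Matrix.fromCols_mul_fromRows]; simp [Matrix.mul_assoc]
  have e4 : fromCols (0 : Matrix ι q (MonoidAlgebra ℤ G)) X
      * fromBlocks (adj Z) (0 : Matrix q q (MonoidAlgebra ℤ G))
        (0 : Matrix q q (MonoidAlgebra ℤ G)) (1 : Matrix q q (MonoidAlgebra ℤ G))
      = fromCols 0 X := by
    rw [Matrix.fromCols_mul_fromBlocks]; simp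
  have e5 : fromBlocks (0 : Matrix q q (MonoidAlgebra ℤ G)) Z
      (0 : Matrix q q (MonoidAlgebra ℤ G)) (0 : Matrix q q (MonoidAlgebra ℤ G))
      * fromRows (adj X) (W * Y) = fromRows Y 0 := by
    rw [Matrix.fromBlocks_mul_fromRows]
    simp only [Matrix.zero_mul, zero_add, ← Matrix.mul_assoc, hZW, Matrix.one_mul]
  have e6 : fromBlocks (0 : Matrix q q (MonoidAlgebra ℤ G)) Z
      (0 : Matrix q q (MonoidAlgebra ℤ G)) (0 : Matrix q q (MonoidAlgebra ℤ G))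
      * fromBlocks (adj Z) (0 : Matrix q q (MonoidAlgebra ℤ G))
      (0 : Matrix q q (MonoidAlgebra ℤ G)) (1 : Matrix q q (MonoidAlgebra ℤ G))
      = fromBlocks 0 Z 0 0 := by
    rw [Matrix.fromBlocks_multiply]; simp
  rw [e3, e4, e5, e6]

theorem el_model {q : Type} [Fintype q] [DecidableEq q] (X : Matrix ι q (MonoidAlgebra ℤ G))
    (X' : Matrix ι q (MonoidAlgebra ℤ G)) (Z : Matrix q q (MonoidAlgebra ℤ G))
    (hZ : Z ∈ El (R := MonoidAlgebra ℤ G) q) :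
    (fromBlocks 1 (fromCols X X') 0 (fromBlocks Z 0 0 1) :
      Matrix (ι ⊕ (q ⊕ q)) (ι ⊕ (q ⊕ q)) (MonoidAlgebra ℤ G)) ∈
      El (R := MonoidAlgebra ℤ G) (ι ⊕ (q ⊕ q)) := by
  have e : (fromBlocks 1 (fromCols X X') 0 (fromBlocks Z 0 0 1) :
      Matrix (ι ⊕ (q ⊕ q)) (ι ⊕ (q ⊕ q)) (MonoidAlgebra ℤ G))
      = fromBlocks (1 : Matrix ι ι (MonoidAlgebra ℤ G)) 0 0
      (fromBlocks Z 0 0 1) * (1 + fromBlocks 0 (fromCols X X') 0 0) := by
    rw [← Matrix.fromBlocks_one, Matrix.fromBlocks_add, Matrix.fromBlocks_multiply]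
    simp
  rw [e]
  refine mul_mem (el_ext' _ (el_ext Z hZ))
    (el_unip (Finset.univ.filter fun v : ι ⊕ (q ⊕ q) => v.isLeft) _ ?_)
  rintro (i | i) (j | j) h <;> simp at h ⊢

theorem ip_model {q : Type} [Fintype q] [DecidableEq q]
    (X : Matrix ι q (MonoidAlgebra ℤ G)) (Y : Matrix q ι (MonoidAlgebra ℤ G))
    (Z : Matrix q q (MonoidAlgebra ℤ G)) (v v' : ι ⊕ (q ⊕ q) → MonoidAlgebra ℝ G) :
    ip (v ᵥ* toReal (fromBlocks 0 (fromCols 0 X) (fromRows Y 0) (fromBlocks 0 Z 0 0) :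
        Matrix (ι ⊕ (q ⊕ q)) (ι ⊕ (q ⊕ q)) (MonoidAlgebra ℤ G))) v'
      = ip ((v ∘ Sum.inl) ᵥ* toReal X) (v' ∘ Sum.inr ∘ Sum.inr)
        + ip ((v ∘ Sum.inr ∘ Sum.inl) ᵥ* toReal Z) (v' ∘ Sum.inr ∘ Sum.inr)
        + ip ((v ∘ Sum.inr ∘ Sum.inl) ᵥ* toReal Y) (v' ∘ Sum.inl) := by
  have h1 : v ᵥ* toReal (fromBlocks 0 (fromCols 0 X) (fromRows Y 0) (fromBlocks 0 Z 0 0) :
        Matrix (ι ⊕ (q ⊕ q)) (ι ⊕ (q ⊕ q)) (MonoidAlgebra ℤ G))
      = Sum.elim ((v ∘ Sum.inr ∘ Sum.inl) ᵥ* toReal Y)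
      (Sum.elim 0 ((v ∘ Sum.inl) ᵥ* toReal X + (v ∘ Sum.inr ∘ Sum.inl) ᵥ* toReal Z)) := by
    funext j
    rcases j with j | j | j
    · simp [Matrix.vecMul, dotProduct, toReal, Fintype.sum_sum_type]
    · simp [Matrix.vecMul, dotProduct, toReal, Fintype.sum_sum_type]
    · simp [Matrix.vecMul, dotProduct, toReal, Fintype.sum_sum_type]
  rw [h1, ip_elim, ip_elim (Sum.elim _ _ ∘ Sum.inr)]
  have h2 : (Sum.elim ((v ∘ Sum.inr ∘ Sum.inl) ᵥ* toReal Y)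
      (Sum.elim (0 : q → MonoidAlgebra ℝ G)
        ((v ∘ Sum.inl) ᵥ* toReal X + (v ∘ Sum.inr ∘ Sum.inl) ᵥ* toReal Z)))
      ∘ Sum.inl = (v ∘ Sum.inr ∘ Sum.inl) ᵥ* toReal Y := rfl
  have h3 : ((Sum.elim ((v ∘ Sum.inr ∘ Sum.inl) ᵥ* toReal Y)
      (Sum.elim (0 : q → MonoidAlgebra ℝ G)
        ((v ∘ Sum.inl) ᵥ* toReal X + (v ∘ Sum.inr ∘ Sum.inl) ᵥ* toReal Z)))
      ∘ Sum.inr) ∘ Sum.inl = 0 := rfl
  have h4 : ((Sum.elim ((v ∘ Sum.inr ∘ Sum.inl) ᵥ* toReal Y)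
      (Sum.elim (0 : q → MonoidAlgebra ℝ G)
        ((v ∘ Sum.inl) ᵥ* toReal X + (v ∘ Sum.inr ∘ Sum.inl) ᵥ* toReal Z)))
      ∘ Sum.inr) ∘ Sum.inr
      = (v ∘ Sum.inl) ᵥ* toReal X + (v ∘ Sum.inr ∘ Sum.inl) ᵥ* toReal Z := rfl
  rw [h2, h3, h4, ip_zero_left, ip_add_left]
  have h5 : (v' ∘ Sum.inr) ∘ Sum.inr = v' ∘ Sum.inr ∘ Sum.inr := rfl
  rw [h5]
  ring

theorem ip_sym (F : Matrix ι ι (MonoidAlgebra ℤ G)) (ε : ℤ) (v v' : ι → MonoidAlgebra ℝ G) :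
    ip (v ᵥ* toReal (F + ε • adj F)) v' = ip (v ᵥ* toReal F) v' + ε * ip (v' ᵥ* toReal F) v := by
  rw [toReal_add, toReal_zsmul, toReal_adj, Matrix.vecMul_add, ip_add_left]
  congr 1
  have h2 : v ᵥ* (ε • adj (toReal F)) = (ε : ℝ) • (v ᵥ* adj (toReal F)) := by
    rw [← Int.cast_smul_eq_zsmul ℝ ε (adj (toReal F)), Matrix.vecMul_smul]
  rw [h2, ip_smul_left, ip_vecMul, adj_adj, ip_comm]

end form

section final

variable {κ : Type} [Fintype κ] [DecidableEq κ]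

theorem dist_form (ψ : Matrix (κ ⊕ κ) (κ ⊕ κ) (MonoidAlgebra ℤ G)) :
    ∃ (q : Type) (_ : Fintype q) (_ : DecidableEq q)
      (P : (Matrix ((κ ⊕ κ) ⊕ (q ⊕ q)) ((κ ⊕ κ) ⊕ (q ⊕ q)) (MonoidAlgebra ℤ G))ˣ),
      P ∈ commutator (Matrix ((κ ⊕ κ) ⊕ (q ⊕ q)) ((κ ⊕ κ) ⊕ (q ⊕ q)) (MonoidAlgebra ℤ G))ˣ ∧
      ∀ ε : ℤ, (ε = 1 ∨ ε = -1) →
        NormLE ((P.val * addHyp q ψ * adj P.val - addHyp q (hyp (MonoidAlgebra ℤ G) κ))
          + ε • adj (P.val * addHyp q ψ * adj P.val - addHyp q (hyp (MonoidAlgebra ℤ G) κ)))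
          (Real.sqrt 2) := by
  obtain ⟨q, i1, i2, X, Y, Z, W, hZ, hZW, hWZ, hB, hcard, hN⟩ :=
    modD_all (ψ - hyp (MonoidAlgebra ℤ G) κ)
  refine ⟨q, i1, i2, ?_⟩
  set Q : Matrix ((κ ⊕ κ) ⊕ (q ⊕ q)) ((κ ⊕ κ) ⊕ (q ⊕ q)) (MonoidAlgebra ℤ G) :=
    fromBlocks 1 (fromCols X (adj (W * Y))) 0 (fromBlocks (1 + Z) 0 0 1) with hQ
  have hcard3 : 3 ≤ Fintype.card ((κ ⊕ κ) ⊕ (q ⊕ q)) := by
    simp only [Fintype.card_sum]; omega
  have hQE : Q ∈ El (R := MonoidAlgebra ℤ G) ((κ ⊕ κ) ⊕ (q ⊕ q)) := el_model _ _ (1 + Z) hZ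
  obtain ⟨P, hP1, hP2⟩ := comm_of_El hcard3 Q hQE
  refine ⟨P, hP2, ?_⟩
  rw [hP1]
  set F : Matrix ((κ ⊕ κ) ⊕ (q ⊕ q)) ((κ ⊕ κ) ⊕ (q ⊕ q)) (MonoidAlgebra ℤ G) :=
    fromBlocks 0 (fromCols 0 X) (fromRows Y 0) (fromBlocks 0 Z 0 0) with hF
  have hform : Q * addHyp q ψ * adj Q - addHyp q (hyp (MonoidAlgebra ℤ G) κ) = F := by
    rw [hQ, form_conj ψ X Y (1 + Z) W hZW, hF, addHyp, sub_eq_iff_eq_add, Matrix.fromBlocks_add,
      Matrix.fromBlocks_add]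
    have h1 : ψ + X * W * Y = hyp (MonoidAlgebra ℤ G) κ := by
      have h2 : X * W * Y = -(ψ - hyp (MonoidAlgebra ℤ G) κ) := by rw [← hB, neg_neg]
      rw [h2]; abel
    rw [h1]
    simp [add_comm]
  rw [hform]
  intro ε hε
  have hε1 : |(ε : ℝ)| = 1 := by
    rcases hε with rfl | rfl <;> simp
  refine normLE_of_ip _ (Real.sqrt 2) sqrt2_pos fun v v' => ?_
  have nsq : ∀ v : (κ ⊕ κ) ⊕ (q ⊕ q) → MonoidAlgebra ℝ G,
      normSq v = normSq (v ∘ Sum.inl) + (normSq (v ∘ Sum.inr ∘ Sum.inl)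
        + normSq (v ∘ Sum.inr ∘ Sum.inr)) := by
    intro v
    rw [normSq_sum v, normSq_sum (v ∘ Sum.inr)]
    rfl
  have h3 : |ip (v ᵥ* toReal (F + ε • adj F)) v'|
      ≤ |ip (v ᵥ* toReal F) v'| + |ip (v' ᵥ* toReal F) v| := by
    rw [ip_sym]
    refine (abs_add_le _ _).trans ?_
    rw [abs_mul, hε1, one_mul]
  have h4 := hN (v ∘ Sum.inl) (v' ∘ Sum.inl) (v ∘ Sum.inr ∘ Sum.inl) (v' ∘ Sum.inr ∘ Sum.inr)
  have h5 := hN (v' ∘ Sum.inl) (v ∘ Sum.inl) (v' ∘ Sum.inr ∘ Sum.inl) (v ∘ Sum.inr ∘ Sum.inr)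
  rw [← ip_model] at h4 h5
  rw [← hF] at h4 h5
  have h6 : Real.sqrt 2 * (2 * |ip (v ᵥ* toReal (F + ε • adj F)) v'|)
      ≤ Real.sqrt 2 * (Real.sqrt 2 * (normSq v + normSq v')) := by
    rw [← mul_assoc (Real.sqrt 2) (Real.sqrt 2), Real.mul_self_sqrt two_pos.le, nsq v, nsq v']
    have h7 := mul_le_mul_of_nonneg_left h3 (show 0 ≤ Real.sqrt 2 * 2 by positivity)
    linarith
  exact le_of_mul_le_mul_left h6 sqrt2_pos

theorem dist_form_fin (k : ℕ) (ψ : Matrix (Fin k ⊕ Fin k) (Fin k ⊕ Fin k) (MonoidAlgebra ℤ G)) :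
    ∃ (m : ℕ) (P : (Matrix ((Fin k ⊕ Fin k) ⊕ (Fin m ⊕ Fin m)) ((Fin k ⊕ Fin k) ⊕ (Fin m ⊕ Fin m))
        (MonoidAlgebra ℤ G))ˣ),
      P ∈ commutator (Matrix ((Fin k ⊕ Fin k) ⊕ (Fin m ⊕ Fin m))
        ((Fin k ⊕ Fin k) ⊕ (Fin m ⊕ Fin m)) (MonoidAlgebra ℤ G))ˣ ∧
      ∀ ε : ℤ, (ε = 1 ∨ ε = -1) →
        NormLE ((P.val * addHyp (Fin m) ψ * adj P.val
            - addHyp (Fin m) (hyp (MonoidAlgebra ℤ G) (Fin k)))
          + ε • adj (P.val * addHyp (Fin m) ψ * adj P.val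
            - addHyp (Fin m) (hyp (MonoidAlgebra ℤ G) (Fin k)))) (Real.sqrt 2) := by
  obtain ⟨q, iq1, iq2, P, hP, hN⟩ := dist_form ψ
  let e : Fin (Fintype.card q) ≃ q := (Fintype.equivFin q).symm
  let e' : (Fin k ⊕ Fin k) ⊕ (Fin (Fintype.card q) ⊕ Fin (Fintype.card q))
      ≃ (Fin k ⊕ Fin k) ⊕ (q ⊕ q) :=
    Equiv.sumCongr (Equiv.refl _) (Equiv.sumCongr e e)
  refine ⟨Fintype.card q, Units.map (re e') P, comm_re e' P hP, fun ε hε => ?_⟩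
  have h1 := NormLE_re e' _ _ (hN ε hε)
  have h2 : (Units.map (re e') P).val = P.val.submatrix e' e' := rfl
  have h3 : ∀ φ : Matrix (Fin k ⊕ Fin k) (Fin k ⊕ Fin k) (MonoidAlgebra ℤ G),
      addHyp (Fin (Fintype.card q)) φ = (addHyp q φ).submatrix e' e' := by
    intro φ
    ext1 i j
    rcases i with i | i | i <;> rcases j with j | j | j <;> simp [addHyp, e', Matrix.one_apply]
  have h4 : (Units.map (re e') P).val * addHyp (Fin (Fintype.card q)) ψ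
      * adj (Units.map (re e') P).val = (P.val * addHyp q ψ * adj P.val).submatrix e' e' := by
    rw [h2, h3, adj_submatrix, Matrix.submatrix_mul_equiv, Matrix.submatrix_mul_equiv]
  rw [h4, h3]
  exact h1

end final

end TH6.LF
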