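import Pool.Agent.TH6.LF.Red

set_option autoImplicit false
set_option linter.unusedSectionVars false
set_option linter.style.haveILetI false

/-! Every quadratic form over `ℤΓ` is, after adding a hyperbolic form, isometric to a form whose
adjoint has operator norm close to `3 / √2`. -/

namespace TH6.LF

open Matrix TH57.Thr

variable {G : Type} [Group G]

section gen

variable {ι : Type} [Fintype ι] [DecidableEq ι]

/-- The orthogonal sum of a quadratic form with a hyperbolic form. -/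
def addHyp {R : Type} [Ring R] (q : Type) [DecidableEq q] (ψ : Matrix ι ι R) :
    Matrix (ι ⊕ (q ⊕ q)) (ι ⊕ (q ⊕ q)) R :=
  fromBlocks ψ 0 0 (fromBlocks 0 1 0 0)

theorem normLE_of_ip {κ : Type} [Fintype κ] (A : Matrix κ κ (MonoidAlgebra ℤ G)) (c : ℝ)
    (hc : 0 < c)
    (h : ∀ v v' : κ → MonoidAlgebra ℝ G,
      2 * |ip (v ᵥ* toReal A) v'| ≤ c * (normSq v + normSq v')) : NormLE A c := by
  intro v
  have h1 := h v (c⁻¹ • (v ᵥ* toReal A))
  rw [ip_smul_right, ip_self, ← ip_self (c⁻¹ • (v ᵥ* toReal A)), ip_smul_left, ip_smul_right,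
    ip_self, abs_of_nonneg (mul_nonneg (inv_nonneg.2 hc.le) (normSq_nonneg _))] at h1
  have h2 : c * (normSq v + c⁻¹ * (c⁻¹ * normSq (v ᵥ* toReal A)))
      = c * normSq v + c⁻¹ * normSq (v ᵥ* toReal A) := by
    field_simp
  rw [h2] at h1
  have h3 : c⁻¹ * normSq (v ᵥ* toReal A) ≤ c * normSq v := by linarith
  have h4 := mul_le_mul_of_nonneg_left h3 hc.le
  have h5 : c * (c⁻¹ * normSq (v ᵥ* toReal A)) = normSq (v ᵥ* toReal A) := by
    field_simp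
  rw [h5] at h4
  calc _ ≤ _ := h4
    _ = _ := by ring

theorem form_reduction (ψ : Matrix ι ι (MonoidAlgebra ℤ G)) (c : ℝ) (hc : 9 / 2 < c ^ 2) :
    ∃ (q : Type) (_ : Fintype q) (_ : DecidableEq q)
      (P : (Matrix (ι ⊕ (q ⊕ q)) (ι ⊕ (q ⊕ q)) (MonoidAlgebra ℤ G))ˣ),
      P ∈ commutator (Matrix (ι ⊕ (q ⊕ q)) (ι ⊕ (q ⊕ q)) (MonoidAlgebra ℤ G))ˣ ∧
      ∀ ε : ℤ, (ε = 1 ∨ ε = -1) →
        NormLE ((P : Matrix (ι ⊕ (q ⊕ q)) (ι ⊕ (q ⊕ q)) (MonoidAlgebra ℤ G)) * addHyp q ψ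
            * adj (P : Matrix (ι ⊕ (q ⊕ q)) (ι ⊕ (q ⊕ q)) (MonoidAlgebra ℤ G))
          + ε • adj ((P : Matrix (ι ⊕ (q ⊕ q)) (ι ⊕ (q ⊕ q)) (MonoidAlgebra ℤ G)) * addHyp q ψ
            * adj (P : Matrix (ι ⊕ (q ⊕ q)) (ι ⊕ (q ⊕ q)) (MonoidAlgebra ℤ G)))) c := by
  have hr0 : 0 < Real.sqrt 2 := Real.sqrt_pos.2 two_pos
  have hr : Real.sqrt 2 ^ 2 = 2 := Real.sq_sqrt two_pos.le
  set r := Real.sqrt 2 with hrd
  have hc0 : 0 < |c| := by
    rw [abs_pos]; rintro rfl; norm_num at hc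
  have hγ : 3 < |c| * r := by
    have h1 : 3 ^ 2 < (|c| * r) ^ 2 := by
      rw [mul_pow, sq_abs, hr]; linarith
    exact lt_of_pow_lt_pow_left₀ 2 (by positivity) h1
  obtain ⟨q, i1, i2, X, Y, Z, W, hZ, hZW, hWZ, hB, hcard, hN⟩ := mod_all hr0 hr hγ ψ
  refine ⟨q, i1, i2, ?_⟩
  set Q : Matrix (ι ⊕ (q ⊕ q)) (ι ⊕ (q ⊕ q)) (MonoidAlgebra ℤ G) :=
    fromBlocks 1 (fromCols X (adj (W * Y))) 0 (fromBlocks Z 0 0 1) with hQ
  have hcard3 : 3 ≤ Fintype.card (ι ⊕ (q ⊕ q)) := by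
    rw [Fintype.card_sum, Fintype.card_sum]; omega
  have hQE : Q ∈ El (R := MonoidAlgebra ℤ G) (ι ⊕ (q ⊕ q)) := by
    have e : Q = fromBlocks (1 : Matrix ι ι (MonoidAlgebra ℤ G)) 0 0 (fromBlocks Z 0 0 1)
        * (1 + fromBlocks 0 (fromCols X (adj (W * Y))) 0 0) := by
      rw [hQ, ← Matrix.fromBlocks_one, Matrix.fromBlocks_add, Matrix.fromBlocks_multiply]
      simp
    rw [e]
    refine mul_mem (el_ext' _ (el_ext Z hZ))
      (el_unip (Finset.univ.filter fun v : ι ⊕ (q ⊕ q) => v.isLeft) _ ?_)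
    rintro (i | i) (j | j) h <;> simp at h ⊢
  obtain ⟨P, hP1, hP2⟩ := comm_of_El hcard3 Q hQE
  refine ⟨P, hP2, ?_⟩
  rw [hP1]
  set F : Matrix (ι ⊕ (q ⊕ q)) (ι ⊕ (q ⊕ q)) (MonoidAlgebra ℤ G) :=
    fromBlocks 0 (fromCols 0 X) (fromRows Y 0) (fromBlocks 0 Z 0 0) with hF
  have hform : Q * addHyp q ψ * adj Q = F := by
    rw [hQ, hF, addHyp, adj_fromBlocks, adj_fromBlocks, adj_fromCols, adj_adj, adj_one, adj_zero,
      adj_zero, adj_one, Matrix.fromBlocks_multiply, Matrix.fromBlocks_multiply]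
    have e1 : (fromCols X (adj (W * Y)) : Matrix ι (q ⊕ q) (MonoidAlgebra ℤ G))
        * (fromBlocks (0 : Matrix q q (MonoidAlgebra ℤ G)) (1 : Matrix q q (MonoidAlgebra ℤ G))
          (0 : Matrix q q (MonoidAlgebra ℤ G)) (0 : Matrix q q (MonoidAlgebra ℤ G))) =
        fromCols 0 X := by
      rw [Matrix.fromCols_mul_fromBlocks]; simp
    have e2 : fromBlocks Z (0 : Matrix q q (MonoidAlgebra ℤ G))
        (0 : Matrix q q (MonoidAlgebra ℤ G)) (1 : Matrix q q (MonoidAlgebra ℤ G))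
        * fromBlocks (0 : Matrix q q (MonoidAlgebra ℤ G)) (1 : Matrix q q (MonoidAlgebra ℤ G))
          (0 : Matrix q q (MonoidAlgebra ℤ G)) (0 : Matrix q q (MonoidAlgebra ℤ G))
        = fromBlocks 0 Z 0 0 := by
      rw [Matrix.fromBlocks_multiply]; simp
    simp only [Matrix.one_mul, Matrix.mul_zero, Matrix.zero_mul, add_zero, zero_add, e1, e2,
      Matrix.mul_one]
    have e3 : fromCols (0 : Matrix ι q (MonoidAlgebra ℤ G)) X
        * fromRows (adj X) (W * Y) = X * W * Y := by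
      rw [Matrix.fromCols_mul_fromRows]; simp [Matrix.mul_assoc]
    have e4 : fromCols (0 : Matrix ι q (MonoidAlgebra ℤ G)) X
        * fromBlocks (adj Z) (0 : Matrix q q (MonoidAlgebra ℤ G))
          (0 : Matrix q q (MonoidAlgebra ℤ G)) (1 : Matrix q q (MonoidAlgebra ℤ G))
        = fromCols 0 X := by
      rw [Matrix.fromCols_mul_fromBlocks]; simp
    have e5 : fromBlocks (0 : Matrix q q (MonoidAlgebra ℤ G)) Z
        (0 : Matrix q q (MonoidAlgebra ℤ G)) (0 : Matrix q q (MonoidAlgebra ℤ G))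
        * fromRows (adj X) (W * Y) = fromRows Y 0 := by
      rw [Matrix.fromBlocks_mul_fromRows]
      simp only [Matrix.zero_mul, zero_add, ← Matrix.mul_assoc, hZW, Matrix.one_mul]
    have e6 : fromBlocks (0 : Matrix q q (MonoidAlgebra ℤ G)) Z
        (0 : Matrix q q (MonoidAlgebra ℤ G)) (0 : Matrix q q (MonoidAlgebra ℤ G))
        * fromBlocks (adj Z) (0 : Matrix q q (MonoidAlgebra ℤ G))
        (0 : Matrix q q (MonoidAlgebra ℤ G)) (1 : Matrix q q (MonoidAlgebra ℤ G))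
        = fromBlocks 0 Z 0 0 := by
      rw [Matrix.fromBlocks_multiply]; simp
    rw [e3, e4, e5, e6, ← hB]
    simp
  rw [hform]
  intro ε hε
  have hε1 : |(ε : ℝ)| = 1 := by
    rcases hε with rfl | rfl <;> simp
  have hNc : NormLE (F + ε • adj F) |c| := by
    refine normLE_of_ip _ |c| hc0 fun v v' => ?_
    have key : ∀ v v' : ι ⊕ (q ⊕ q) → MonoidAlgebra ℝ G,
        ip (v ᵥ* toReal F) v' = ip ((v ∘ Sum.inl) ᵥ* toReal X) (v' ∘ Sum.inr ∘ Sum.inr)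
          + ip ((v ∘ Sum.inr ∘ Sum.inl) ᵥ* toReal Z) (v' ∘ Sum.inr ∘ Sum.inr)
          + ip ((v ∘ Sum.inr ∘ Sum.inl) ᵥ* toReal Y) (v' ∘ Sum.inl) := by
      intro v v'
      have h1 : v ᵥ* toReal F = Sum.elim ((v ∘ Sum.inr ∘ Sum.inl) ᵥ* toReal Y)
          (Sum.elim 0 ((v ∘ Sum.inl) ᵥ* toReal X + (v ∘ Sum.inr ∘ Sum.inl) ᵥ* toReal Z)) := by
        funext j
        rcases j with j | j | j
        · simp [Matrix.vecMul, dotProduct, toReal, hF, Fintype.sum_sum_type]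
        · simp [Matrix.vecMul, dotProduct, toReal, hF, Fintype.sum_sum_type]
        · simp [Matrix.vecMul, dotProduct, toReal, hF, Fintype.sum_sum_type]
      rw [h1, ip_elim, ip_elim (Sum.elim _ _ ∘ Sum.inr)]
      have h2 : (Sum.elim ((v ∘ Sum.inr ∘ Sum.inl) ᵥ* toReal Y)
          (Sum.elim (0 : q → MonoidAlgebra ℝ G)
            ((v ∘ Sum.inl) ᵥ* toReal X + (v ∘ Sum.inr ∘ Sum.inl) ᵥ* toReal Z)))
          ∘ Sum.inl = (v ∘ Sum.inr ∘ Sum.inl) ᵥ* toReal Y := rfl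
      have h3 : ((Sum.elim ((v ∘ Sum.inr ∘ Sum.inl) ᵥ* toReal Y)
          (Sum.elim (0 : q → MonoidAlgebra ℝ G)
            ((v ∘ Sum.inl) ᵥ* toReal X + (v ∘ Sum.inr ∘ Sum.inl) ᵥ* toReal Z)))
          ∘ Sum.inr) ∘ Sum.inl = 0 := rfl
      have h4 : ((Sum.elim ((v ∘ Sum.inr ∘ Sum.inl) ᵥ* toReal Y)
          (Sum.elim (0 : q → MonoidAlgebra ℝ G)
            ((v ∘ Sum.inl) ᵥ* toReal X + (v ∘ Sum.inr ∘ Sum.inl) ᵥ* toReal Z)))
          ∘ Sum.inr) ∘ Sum.inr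
          = (v ∘ Sum.inl) ᵥ* toReal X + (v ∘ Sum.inr ∘ Sum.inl) ᵥ* toReal Z := rfl
      rw [h2, h3, h4, ip_zero_left, ip_add_left]
      have h5 : (v' ∘ Sum.inr) ∘ Sum.inr = v' ∘ Sum.inr ∘ Sum.inr := rfl
      rw [h5]
      ring
    have nsq : ∀ v : ι ⊕ (q ⊕ q) → MonoidAlgebra ℝ G,
        normSq v = normSq (v ∘ Sum.inl) + (normSq (v ∘ Sum.inr ∘ Sum.inl)
          + normSq (v ∘ Sum.inr ∘ Sum.inr)) := by
      intro v
      rw [normSq_sum v, normSq_sum (v ∘ Sum.inr)]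
      rfl
    have h1 : ip (v ᵥ* toReal (F + ε • adj F)) v'
        = ip (v ᵥ* toReal F) v' + ε * ip (v' ᵥ* toReal F) v := by
      rw [toReal_add, toReal_zsmul, toReal_adj, Matrix.vecMul_add, ip_add_left]
      congr 1
      have h2 : v ᵥ* (ε • adj (toReal F)) = (ε : ℝ) • (v ᵥ* adj (toReal F)) := by
        rw [← Int.cast_smul_eq_zsmul ℝ ε (adj (toReal F)), Matrix.vecMul_smul]
      rw [h2, ip_smul_left, ip_vecMul, adj_adj, ip_comm]
    have h3 : |ip (v ᵥ* toReal (F + ε • adj F)) v'|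
        ≤ |ip (v ᵥ* toReal F) v'| + |ip (v' ᵥ* toReal F) v| := by
      rw [h1]
      refine (abs_add_le _ _).trans ?_
      rw [abs_mul, hε1, one_mul]
    have h4 := hN (v ∘ Sum.inl) (v' ∘ Sum.inl) (v' ∘ Sum.inr ∘ Sum.inr) (v ∘ Sum.inr ∘ Sum.inl)
    have h5 := hN (v' ∘ Sum.inl) (v ∘ Sum.inl) (v ∘ Sum.inr ∘ Sum.inr) (v' ∘ Sum.inr ∘ Sum.inl)
    rw [← key] at h4 h5
    have n1 := normSq_nonneg (v ∘ Sum.inl)
    have n2 := normSq_nonneg (v' ∘ Sum.inl)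
    have h6 : r * (2 * |ip (v ᵥ* toReal (F + ε • adj F)) v'|)
        ≤ r * (|c| * (normSq v + normSq v')) := by
      rw [nsq v, nsq v']
      have h7 := mul_le_mul_of_nonneg_left h3 (show 0 ≤ r * 2 by positivity)
      nlinarith
    exact le_of_mul_le_mul_left h6 hr0
  intro v
  have := hNc v
  rwa [sq_abs] at this

theorem form_reduction_fin (n : ℕ) (ψ : Matrix (Fin n) (Fin n) (MonoidAlgebra ℤ G)) (c : ℝ)
    (hc : 9 / 2 < c ^ 2) :
    ∃ (m : ℕ) (P : (Matrix (Fin n ⊕ (Fin m ⊕ Fin m)) (Fin n ⊕ (Fin m ⊕ Fin m))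
        (MonoidAlgebra ℤ G))ˣ),
      P ∈ commutator (Matrix (Fin n ⊕ (Fin m ⊕ Fin m)) (Fin n ⊕ (Fin m ⊕ Fin m))
        (MonoidAlgebra ℤ G))ˣ ∧
      ∀ ε : ℤ, (ε = 1 ∨ ε = -1) →
        NormLE ((P : Matrix (Fin n ⊕ (Fin m ⊕ Fin m)) (Fin n ⊕ (Fin m ⊕ Fin m))
            (MonoidAlgebra ℤ G)) * addHyp (Fin m) ψ * adj P.val
          + ε • adj (P.val * addHyp (Fin m) ψ * adj P.val)) c := by
  obtain ⟨q, iq1, iq2, P, hP, hN⟩ := form_reduction ψ c hc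
  let e : Fin (Fintype.card q) ≃ q := (Fintype.equivFin q).symm
  let e' : Fin n ⊕ (Fin (Fintype.card q) ⊕ Fin (Fintype.card q)) ≃ Fin n ⊕ (q ⊕ q) :=
    Equiv.sumCongr (Equiv.refl _) (Equiv.sumCongr e e)
  refine ⟨Fintype.card q, Units.map (re e') P, comm_re e' P hP, fun ε hε => ?_⟩
  have h1 := NormLE_re e' _ c (hN ε hε)
  have h2 : ((Units.map (re e') P : (Matrix (Fin n ⊕ (Fin (Fintype.card q) ⊕
      Fin (Fintype.card q))) (Fin n ⊕ (Fin (Fintype.card q) ⊕ Fin (Fintype.card q)))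
        (MonoidAlgebra ℤ G))ˣ) : Matrix _ _ (MonoidAlgebra ℤ G)) = P.val.submatrix e' e' := rfl
  have h3 : addHyp (Fin (Fintype.card q)) ψ = (addHyp q ψ).submatrix e' e' := by
    ext1 i j
    rcases i with i | i | i <;> rcases j with j | j | j <;> simp [addHyp, e', Matrix.one_apply]
  have h4 : (Units.map (re e') P).val * addHyp (Fin (Fintype.card q)) ψ
      * adj (Units.map (re e') P).val = (P.val * addHyp q ψ * adj P.val).submatrix e' e' := by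
    rw [h2, h3, adj_submatrix, Matrix.submatrix_mul_equiv, Matrix.submatrix_mul_equiv]
  rw [h4, adj_submatrix]
  exact h1

end gen

end TH6.LF
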