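import Pool.Agent.TH6.LF.DistF
import Pool.Agent.TH6.LF.Blk
import Pool.Agent.TH57.Thr.Dist2

set_option autoImplicit false
set_option linter.unusedSectionVars false
set_option linter.style.haveILetI false

/-! Nonsingular quadratic forms over `ℤΓ` at distance less than `√2` from the hyperbolic form. -/

namespace TH6.LF

open Matrix TH57.Thr

section color

/-- two fixed point free involutions have a common proper two-colouring -/
theorem two_color {I : Type} (S T : Equiv.Perm I) (hS : S * S = 1) (hT : T * T = 1)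
    (hSf : ∀ x, S x ≠ x) (hTf : ∀ x, T x ≠ x) :
    ∃ c : I → Bool, (∀ x, c (S x) ≠ c x) ∧ ∀ x, c (T x) ≠ c x := by
  classical
  set π : Equiv.Perm I := T * S with hπ
  have hSS : ∀ x, S (S x) = x := fun x => congrFun (congrArg DFunLike.coe hS) x
  have hTT : ∀ x, T (T x) = x := fun x => congrFun (congrArg DFunLike.coe hT) x
  have hSi : S⁻¹ = S := inv_eq_of_mul_eq_one_right hS
  have hTi : T⁻¹ = T := inv_eq_of_mul_eq_one_right hT
  have hconj : S * π * S⁻¹ = π⁻¹ := by
    rw [hπ, _root_.mul_inv_rev, hSi, hTi, mul_assoc, mul_assoc, hS, mul_one]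
  have hSπ : ∀ (k : ℤ) (x : I), S ((π ^ k) x) = (π ^ (-k)) (S x) := by
    intro k x
    have h1 : S * π ^ k * S⁻¹ = π ^ (-k) := by
      rw [← conj_zpow, hconj, _root_.inv_zpow, _root_.zpow_neg]
    rw [← h1, Equiv.Perm.mul_apply, Equiv.Perm.mul_apply, hSi, hSS]
  have hne : ∀ x, ¬ π.SameCycle x (S x) := by
    rintro x ⟨k, hk⟩
    rcases Int.even_or_odd' k with ⟨l, rfl | rfl⟩
    · apply hSf ((π ^ l) x)
      rw [hSπ, ← hk, ← Equiv.Perm.mul_apply, ← _root_.zpow_add]
      congr 2
      ring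
    · have h1 : S ((π ^ l) x) = (π ^ (l + 1)) x := by
        rw [hSπ, ← hk, ← Equiv.Perm.mul_apply, ← _root_.zpow_add]
        congr 2
        ring
      have h2 : (π ^ (l + 1)) x = T (S ((π ^ l) x)) := by
        rw [add_comm, _root_.zpow_add, zpow_one, Equiv.Perm.mul_apply, hπ, Equiv.Perm.mul_apply]
      exact hTf (S ((π ^ l) x)) (by rw [← h2, h1])
  let st : Setoid I := Equiv.Perm.SameCycle.setoid π
  let W : Quotient st → Quotient st → Prop := WellOrderingRel
  have hcy : ∀ x y, π.SameCycle x y → π.SameCycle (S x) (S y) := by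
    rintro x y ⟨k, rfl⟩
    exact ⟨-k, (hSπ k x).symm⟩
  let c : I → Bool := fun x => decide (W (Quotient.mk st x) (Quotient.mk st (S x)))
  have hc1 : ∀ x, c (S x) ≠ c x := by
    intro x
    simp only [c, hSS]
    have hne' : Quotient.mk st x ≠ Quotient.mk st (S x) := fun h => hne x (Quotient.exact h)
    rcases trichotomous_of WellOrderingRel (Quotient.mk st x) (Quotient.mk st (S x)) with h | h | h
    · have h' : ¬ W (Quotient.mk st (S x)) (Quotient.mk st x) :=
        fun h'' => asymm_of WellOrderingRel h h''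
      rw [decide_eq_true (p := W (Quotient.mk st x) (Quotient.mk st (S x))) h,
        decide_eq_false h']
      decide
    · exact absurd h hne'
    · have h' : ¬ W (Quotient.mk st x) (Quotient.mk st (S x)) :=
        fun h'' => asymm_of WellOrderingRel h h''
      rw [decide_eq_true (p := W (Quotient.mk st (S x)) (Quotient.mk st x)) h,
        decide_eq_false h']
      decide
  refine ⟨c, hc1, fun x => ?_⟩
  have h1 : c (T x) = c (S x) := by
    have h2 : T x = π (S x) := by rw [hπ, Equiv.Perm.mul_apply, hSS]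
    have h3 : π.SameCycle (S x) (π (S x)) := ⟨1, by simp⟩
    have h4 : Quotient.mk st (π (S x)) = Quotient.mk st (S x) := Quotient.sound h3.symm
    have h5 : Quotient.mk st (S (π (S x))) = Quotient.mk st (S (S x)) :=
      Quotient.sound (hcy _ _ h3).symm
    simp only [c]
    rw [h2, h4, h5]
  rw [h1]
  exact hc1 x

/-- a fixed point free involution and a partial matching have a common proper two-colouring -/
theorem two_color' {I : Type} (s : I → I) (hs : ∀ x, s (s x) = x) (hsf : ∀ x, s x ≠ x)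
    (R : I → I → Prop) (hR : ∀ x y, R x y → R y x) (hRi : ∀ x, ¬ R x x)
    (hRu : ∀ x y z, R x y → R x z → y = z) :
    ∃ c : I → Bool, (∀ x, c (s x) ≠ c x) ∧ ∀ x y, R x y → c x ≠ c y := by
  classical
  let t : I × Bool → I × Bool := fun p =>
    if h : ∃ y, R p.1 y then (Classical.choose h, p.2) else (p.1, !p.2)
  have ht1 : ∀ x y b, R x y → t (x, b) = (y, b) := by
    intro x y b h
    have hex : ∃ y, R x y := ⟨y, h⟩
    simp only [t]
    rw [dif_pos hex]
    rw [hRu x _ _ (Classical.choose_spec hex) h]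
  have ht2 : ∀ x b, (¬ ∃ y, R x y) → t (x, b) = (x, !b) := by
    intro x b h
    simp only [t]
    rw [dif_neg h]
  have htt : ∀ p, t (t p) = p := by
    rintro ⟨x, b⟩
    by_cases h : ∃ y, R x y
    · obtain ⟨y, hy⟩ := h
      rw [ht1 x y b hy, ht1 y x b (hR _ _ hy)]
    · rw [ht2 x b h, ht2 x _ h, Bool.not_not]
  have htf : ∀ p, t p ≠ p := by
    rintro ⟨x, b⟩ hp
    by_cases h : ∃ y, R x y
    · obtain ⟨y, hy⟩ := h
      rw [ht1 x y b hy] at hp
      have : y = x := congrArg Prod.fst hp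
      exact hRi x (by rw [this] at hy; exact hy)
    · rw [ht2 x b h] at hp
      have := congrArg Prod.snd hp
      simp at this
  let S : Equiv.Perm (I × Bool) :=
    { toFun := fun p => (s p.1, p.2)
      invFun := fun p => (s p.1, p.2)
      left_inv := fun p => by simp [hs]
      right_inv := fun p => by simp [hs] }
  let T : Equiv.Perm (I × Bool) :=
    { toFun := t
      invFun := t
      left_inv := htt
      right_inv := htt }
  obtain ⟨c, hc1, hc2⟩ := two_color S T (by ext1 p; exact S.left_inv p)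
    (by ext1 p; exact htt p) (fun p h => hsf p.1 (congrArg Prod.fst h)) htf
  refine ⟨fun x => c (x, true), fun x => hc1 (x, true), fun x y h => ?_⟩
  have h1 := hc2 (x, true)
  change c (t (x, true)) ≠ c (x, true) at h1
  rw [ht1 x y true h] at h1
  exact h1.symm

end color

section near

variable {G : Type} [Group G]

/-- a matrix `δ` with `δ + ε δ* = 0` is `χ - ε χ*` up to a diagonal matrix supported on the elements
of order at most two -/
theorem exists_alt' {ι : Type} (ε : ℤ) (δ : Matrix ι ι (MonoidAlgebra ℤ G))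
    (h1 : ∀ i j g, (δ i j).coeff g + ε * (δ j i).coeff g⁻¹ = 0) :
    ∃ D χ : Matrix ι ι (MonoidAlgebra ℤ G), (∀ i j, i ≠ j → D i j = 0) ∧
      (∀ i g, (D i i).coeff g ≠ 0 → g * g = 1) ∧ (ε = 1 → D = 0) ∧
      δ = D + (χ - ε • adj χ) := by
  classical
  let D : Matrix ι ι (MonoidAlgebra ℤ G) := fun i j =>
    if i = j then .ofCoeff ((δ i j).coeff.filter (fun g => g = g⁻¹)) else 0
  have hD1 : ∀ i j, i ≠ j → D i j = 0 := fun i j h => if_neg h
  have hD2 : ∀ i g, (D i i).coeff g = if g = g⁻¹ then (δ i i).coeff g else 0 := by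
    intro i g
    simp only [D, if_true, Finsupp.filter_apply]
  let W : (ι × ι × G) → (ι × ι × G) → Prop := WellOrderingRel
  let χ : Matrix ι ι (MonoidAlgebra ℤ G) := fun i j =>
    .ofCoeff ((δ i j).coeff.filter (fun g => W (i, j, g) (j, i, g⁻¹)))
  have hχ : ∀ i j g, (χ i j).coeff g = if W (i, j, g) (j, i, g⁻¹) then (δ i j).coeff g else 0 := by
    intro i j g
    simp only [χ, Finsupp.filter_apply]
  refine ⟨D, χ, hD1, ?_, ?_, ?_⟩
  · intro i g h
    rw [hD2] at h
    by_cases hg : g = g⁻¹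
    · nth_rewrite 2 [hg]; exact mul_inv_cancel g
    · exact absurd (if_neg hg) h
  · intro hε
    ext i j g
    by_cases hij : i = j
    · subst hij
      rw [hD2, Matrix.zero_apply, MonoidAlgebra.coeff_zero, Finsupp.coe_zero, Pi.zero_apply]
      split_ifs with hg
      · have h2 := h1 i i g
        rw [← hg, hε] at h2
        omega
      · rfl
    · rw [hD1 i j hij]; rfl
  · ext i j g
    rw [Matrix.add_apply, coeff_add', Matrix.sub_apply, coeff_sub', Matrix.smul_apply,
      coeff_zsmul', coeff_adj, hχ, hχ, inv_inv]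
    have h3 := h1 i j g
    rcases trichotomous_of WellOrderingRel (i, j, g) (j, i, g⁻¹) with h | h | h
    · have h' : ¬ W (j, i, g⁻¹) (i, j, g) := fun h'' => asymm_of WellOrderingRel h h''
      rw [if_pos h, if_neg h']
      have hDz : (D i j).coeff g = 0 := by
        by_cases hij : i = j
        · subst hij
          rw [hD2]
          by_cases hg : g = g⁻¹
          · rw [← hg] at h; exact absurd h (irrefl_of WellOrderingRel _)
          · exact if_neg hg
        · rw [hD1 i j hij]; rfl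
      rw [hDz]
      ring
    · simp only [Prod.mk.injEq] at h
      obtain ⟨rfl, _, h4⟩ := h
      have h5 : ¬ W (i, i, g) (i, i, g⁻¹) := by
        rw [← h4]; exact irrefl_of WellOrderingRel _
      have h6 : ¬ W (i, i, g⁻¹) (i, i, g) := by
        rw [← h4]; exact irrefl_of WellOrderingRel _
      rw [if_neg h5, if_neg h6, hD2, if_pos h4]
      ring
    · have h' : ¬ W (i, j, g) (j, i, g⁻¹) := fun h'' => asymm_of WellOrderingRel h h''
      rw [if_neg h', if_pos h]
      have hDz : (D i j).coeff g = 0 := by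
        by_cases hij : i = j
        · subst hij
          rw [hD2]
          by_cases hg : g = g⁻¹
          · rw [← hg] at h; exact absurd h (irrefl_of WellOrderingRel _)
          · exact if_neg hg
        · rw [hD1 i j hij]; rfl
      rw [hDz]
      linarith

variable {κ : Type} [Fintype κ] [DecidableEq κ]

theorem hyp_adj (ε : ℤ) : hyp (MonoidAlgebra ℤ G) κ + ε • adj (hyp (MonoidAlgebra ℤ G) κ)
    = fromBlocks 0 1 (ε • 1) 0 := by
  rw [hyp, adj_fromBlocks, adj_zero, adj_one, Matrix.fromBlocks_smul, Matrix.fromBlocks_add]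
  simp

theorem conj_sub {ι : Type} [Fintype ι] (ε : ℤ) (P ψ H : Matrix ι ι (MonoidAlgebra ℤ G)) :
    (P * ψ * adj P - H) + ε • adj (P * ψ * adj P - H)
      = P * (ψ + ε • adj ψ) * adj P - (H + ε • adj H) := by
  rw [adj_sub, adj_mul, adj_mul, adj_adj, Matrix.mul_add, Matrix.add_mul,
    Matrix.mul_smul, Matrix.smul_mul, Matrix.mul_assoc P (adj ψ), smul_sub]
  abel

theorem near_form (ε : ℤ) (hε : ε = 1 ∨ ε = -1) (c : ℝ) (hc : c ^ 2 < 2)
    (ψ : Matrix (κ ⊕ κ) (κ ⊕ κ) (MonoidAlgebra ℤ G)) (hunit : IsUnit (ψ + ε • adj ψ))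
    (hN : NormLE ((ψ - hyp (MonoidAlgebra ℤ G) κ)
      + ε • adj (ψ - hyp (MonoidAlgebra ℤ G) κ)) c) :
    ∃ (P : (Matrix (κ ⊕ κ) (κ ⊕ κ) (MonoidAlgebra ℤ G))ˣ)
      (D χ : Matrix (κ ⊕ κ) (κ ⊕ κ) (MonoidAlgebra ℤ G)),
      (∀ i j, i ≠ j → D i j = 0) ∧ (∀ i g, (D i i).coeff g ≠ 0 → g * g = 1) ∧
      (ε = 1 → D = 0) ∧
      P.val * ψ * adj P.val = hyp (MonoidAlgebra ℤ G) κ + D + (χ - ε • adj χ) := by
  classical
  have hεε : ε * ε = 1 := by rcases hε with rfl | rfl <;> norm_num
  have hε0 : ε ≠ 0 := by rcases hε with rfl | rfl <;> norm_num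
  set φ := ψ - hyp (MonoidAlgebra ℤ G) κ with hφ
  set N := φ + ε • adj φ with hNd
  set A := ψ + ε • adj ψ with hA
  have hAJ : A = fromBlocks 0 1 (ε • 1) 0 + N := by
    rw [hNd, hφ, hA, ← hyp_adj (G := G) (κ := κ) ε, adj_sub, smul_sub]
    abel
  have hrow := rowOne_of_norm N c hc hN
  have hNc : ∀ i j g, (N i j).coeff g = (φ i j).coeff g + ε * (φ j i).coeff g⁻¹ := by
    intro i j g
    rw [hNd, Matrix.add_apply, coeff_add', Matrix.smul_apply, coeff_zsmul', coeff_adj]
  have hNs : ∀ i j g, (N j i).coeff g⁻¹ = ε * (N i j).coeff g := by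
    intro i j g
    rw [hNc, hNc, inv_inv]
    linear_combination (-(φ j i).coeff g⁻¹) * hεε
  have hNsym : ∀ i j, N i j ≠ 0 → N j i ≠ 0 := by
    intro i j h h0
    apply h
    ext g
    have h1 := hNs i j g
    rw [h0, MonoidAlgebra.coeff_zero, Finsupp.coe_zero, Pi.zero_apply] at h1
    rw [MonoidAlgebra.coeff_zero, Finsupp.coe_zero, Pi.zero_apply]
    rcases mul_eq_zero.1 h1.symm with h2 | h2
    · exact absurd h2 hε0
    · exact h2
  have hNu : ∀ i j k, N i j ≠ 0 → N i k ≠ 0 → j = k := by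
    intro i j k hj hk
    rcases hrow i with h | ⟨l, g, δ, _, _, h⟩
    · exact absurd (h j) hj
    · have e1 : j = l := by
        by_contra hcon; exact hj (h j hcon)
      have e2 : k = l := by
        by_contra hcon; exact hk (h k hcon)
      rw [e1, e2]
  have hNi : ∀ i, ¬ (N i i ≠ 0) := by
    intro i hne
    rcases hrow i with h | ⟨l, g, δ, hδ, hl, h⟩
    · exact hne (h i)
    · have e1 : i = l := by
        by_contra hcon; exact hne (h i hcon)
      subst e1
      have h1 : (N i i).coeff g = δ := by rw [hl]; simp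
      have h2 := hNs i i g
      have h3 : g = g⁻¹ := by
        by_contra hg
        rw [h1, hl] at h2
        simp only [MonoidAlgebra.coeff_single] at h2
        rw [Finsupp.single_eq_of_ne (fun h => hg h.symm)] at h2
        rcases hδ with rfl | rfl <;> rcases hε with rfl | rfl <;> norm_num at h2
      have h4 := hNc i i g
      rw [← h3, h1] at h4
      rcases hδ with rfl | rfl <;> rcases hε with rfl | rfl <;> omega
  obtain ⟨col, hcol1, hcol2⟩ := two_color' (Sum.swap : κ ⊕ κ → κ ⊕ κ) Sum.swap_swap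
    (by rintro (x | x) h <;> simp at h) (fun i j => N i j ≠ 0) hNsym hNi hNu
  -- the reindexing
  let τf : κ ⊕ κ → κ ⊕ κ := fun x => if col (Sum.inl (Sum.elim id id x)) then x else Sum.swap x
  have hτel : ∀ x, (Sum.elim id id (τf x) : κ) = Sum.elim id id x := by
    intro x
    simp only [τf]
    split_ifs
    · rfl
    · rcases x with x | x <;> rfl
  have hττ : ∀ x, τf (τf x) = x := by
    intro x
    have h1 := hτel x
    by_cases hb : col (Sum.inl (Sum.elim id id x)) = true
    · have h2 : τf x = x := if_pos hb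
      rw [h2, h2]
    · have h2 : τf x = Sum.swap x := if_neg hb
      have h3 : τf (τf x) = Sum.swap (τf x) := by
        apply if_neg
        rw [h1]
        exact hb
      rw [h3, h2, Sum.swap_swap]
  let τ : (κ ⊕ κ) ≃ (κ ⊕ κ) := ⟨τf, τf, hττ, hττ⟩
  have hτl : ∀ k, col (τ (Sum.inl k)) = true := by
    intro k
    change col (τf (Sum.inl k)) = true
    by_cases hb : col (Sum.inl k) = true
    · have h2 : τf (Sum.inl k) = Sum.inl k := if_pos hb
      rw [h2, hb]
    · have h2 : τf (Sum.inl k) = Sum.inr k := if_neg hb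
      rw [h2]
      have h3 := hcol1 (Sum.inl k)
      rw [Sum.swap_inl] at h3
      rw [Bool.not_eq_true] at hb
      rw [hb] at h3
      simpa using h3
  have hτr : ∀ k, col (τ (Sum.inr k)) = false := by
    intro k
    change col (τf (Sum.inr k)) = false
    by_cases hb : col (Sum.inl k) = true
    · have h2 : τf (Sum.inr k) = Sum.inr k := if_pos hb
      rw [h2]
      have h3 := hcol1 (Sum.inl k)
      rw [Sum.swap_inl, hb] at h3
      simpa using h3
    · have h2 : τf (Sum.inr k) = Sum.inl k := if_neg hb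
      rw [h2]
      simpa using hb
  have hAz : ∀ x y, col x = col y → A x y = 0 := by
    intro x y hxy
    have h1 : N x y = 0 := by
      by_contra h
      exact hcol2 x y h hxy
    rw [hAJ, Matrix.add_apply, h1, add_zero]
    rcases x with x | x <;> rcases y with y | y
    · rfl
    · rw [fromBlocks_apply₁₂, Matrix.one_apply]
      apply if_neg
      rintro rfl
      have h2 := hcol1 (Sum.inl x)
      rw [Sum.swap_inl] at h2
      exact h2 hxy.symm
    · rw [fromBlocks_apply₂₁, Matrix.smul_apply, Matrix.one_apply]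
      rw [if_neg, smul_zero]
      rintro rfl
      have h2 := hcol1 (Sum.inl x)
      rw [Sum.swap_inl] at h2
      exact h2 hxy
    · rfl
  set A' := A.submatrix τ τ with hA'
  set B := A'.toBlocks₁₂ with hB
  have hAadj : ε • adj A = A := by
    rw [hA, adj_add, adj_zsmul, adj_adj, smul_add, smul_smul, hεε, one_smul, add_comm]
  have hA'b : A' = fromBlocks 0 B (ε • adj B) 0 := by
    rw [← Matrix.fromBlocks_toBlocks A']
    congr 1
    · ext1 i j
      exact hAz _ _ (by rw [hτl, hτl])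
    · ext1 i j
      change A (τ (Sum.inr i)) (τ (Sum.inl j)) = ε • bar (A (τ (Sum.inl j)) (τ (Sum.inr i)))
      have h1 := congrFun (congrFun hAadj (τ (Sum.inr i))) (τ (Sum.inl j))
      exact h1.symm
    · ext1 i j
      exact hAz _ _ (by rw [hτr, hτr])
  obtain ⟨v, hv⟩ := hunit
  have hv1 : A' * ((↑v⁻¹ : Matrix (κ ⊕ κ) (κ ⊕ κ) (MonoidAlgebra ℤ G)).submatrix τ τ) = 1 := by
    rw [hA', ← hv, Matrix.submatrix_mul_equiv, Units.mul_inv, Matrix.submatrix_one_equiv]
  have hv2 : ((↑v⁻¹ : Matrix (κ ⊕ κ) (κ ⊕ κ) (MonoidAlgebra ℤ G)).submatrix τ τ) * A' = 1 := by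
    rw [hA', ← hv, Matrix.submatrix_mul_equiv, Units.inv_mul, Matrix.submatrix_one_equiv]
  set M := ((↑v⁻¹ : Matrix (κ ⊕ κ) (κ ⊕ κ) (MonoidAlgebra ℤ G)).submatrix τ τ) with hM
  set C := M.toBlocks₂₁ with hC
  have hBC : B * C = 1 := by
    rw [hA'b, ← Matrix.fromBlocks_toBlocks M, Matrix.fromBlocks_multiply,
      ← Matrix.fromBlocks_one] at hv1
    have h1 := congrArg Matrix.toBlocks₁₁ hv1
    rw [Matrix.toBlocks_fromBlocks₁₁, Matrix.toBlocks_fromBlocks₁₁, Matrix.zero_mul,
      zero_add] at h1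
    exact h1
  have hCB : C * B = 1 := by
    rw [hA'b, ← Matrix.fromBlocks_toBlocks M, Matrix.fromBlocks_multiply,
      ← Matrix.fromBlocks_one] at hv2
    have h1 := congrArg Matrix.toBlocks₂₂ hv2
    rw [Matrix.toBlocks_fromBlocks₂₂, Matrix.toBlocks_fromBlocks₂₂, Matrix.mul_zero,
      add_zero] at h1
    exact h1
  -- the isometry
  set T0 : Matrix (κ ⊕ κ) (κ ⊕ κ) (MonoidAlgebra ℤ G) :=
    (1 : Matrix (κ ⊕ κ) (κ ⊕ κ) (MonoidAlgebra ℤ G)).submatrix τ id with hT0
  have hT0a : adj T0 = (1 : Matrix (κ ⊕ κ) (κ ⊕ κ) (MonoidAlgebra ℤ G)).submatrix id τ := by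
    rw [hT0, adj_submatrix, adj_one]
  have hT0m : ∀ X : Matrix (κ ⊕ κ) (κ ⊕ κ) (MonoidAlgebra ℤ G),
      T0 * X * adj T0 = X.submatrix τ τ := by
    intro X
    rw [hT0a, hT0]
    ext1 i j
    simp [Matrix.mul_apply, Matrix.one_apply]
  have hT01 : T0 * adj T0 = 1 := by
    have := hT0m 1
    rwa [Matrix.mul_one, Matrix.submatrix_one_equiv] at this
  have hT02 : adj T0 * T0 = 1 := by
    rw [hT0a, hT0, Matrix.submatrix_mul_equiv, Matrix.one_mul]
    rfl
  set P1 : Matrix (κ ⊕ κ) (κ ⊕ κ) (MonoidAlgebra ℤ G) := fromBlocks 1 0 0 (adj C) with hP1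
  set P2 : Matrix (κ ⊕ κ) (κ ⊕ κ) (MonoidAlgebra ℤ G) := fromBlocks 1 0 0 (adj B) with hP2
  have hP12 : P1 * P2 = 1 := by
    rw [hP1, hP2, Matrix.fromBlocks_multiply, ← Matrix.fromBlocks_one, ← adj_mul, hBC, adj_one]
    simp
  have hP21 : P2 * P1 = 1 := by
    rw [hP1, hP2, Matrix.fromBlocks_multiply, ← Matrix.fromBlocks_one, ← adj_mul, hCB, adj_one]
    simp
  let P : (Matrix (κ ⊕ κ) (κ ⊕ κ) (MonoidAlgebra ℤ G))ˣ :=
    ⟨P1 * T0, adj T0 * P2, by
      rw [Matrix.mul_assoc, ← Matrix.mul_assoc T0, hT01, Matrix.one_mul, hP12], by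
      rw [Matrix.mul_assoc, ← Matrix.mul_assoc P2, hP21, Matrix.one_mul, hT02]⟩
  have hPA : P.val * A * adj P.val = fromBlocks 0 1 (ε • 1) 0 := by
    change P1 * T0 * A * adj (P1 * T0) = _
    rw [adj_mul]
    calc P1 * T0 * A * (adj T0 * adj P1) = P1 * (T0 * A * adj T0) * adj P1 := by
          simp only [Matrix.mul_assoc]
      _ = fromBlocks 0 1 (ε • 1) 0 := by
          rw [hT0m, ← hA', hA'b, hP1, adj_fromBlocks, adj_adj, adj_one, adj_zero,
            Matrix.fromBlocks_multiply, Matrix.fromBlocks_multiply]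
          simp only [Matrix.one_mul, Matrix.mul_one, Matrix.mul_zero, Matrix.zero_mul, add_zero,
            zero_add, hBC]
          rw [Matrix.mul_smul, ← adj_mul, hBC, adj_one]
  obtain ⟨D, χ, hD1, hD2, hD3, hδ⟩ := exists_alt' ε
    (P.val * ψ * adj P.val - hyp (MonoidAlgebra ℤ G) κ) (fun i j g => by
      have h1 : (P.val * ψ * adj P.val - hyp (MonoidAlgebra ℤ G) κ)
          + ε • adj (P.val * ψ * adj P.val - hyp (MonoidAlgebra ℤ G) κ) = 0 := by
        have h2 := conj_sub ε P.val ψ (hyp (MonoidAlgebra ℤ G) κ)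
        rw [h2, hPA, hyp_adj, sub_self]
      have h3 := congrArg (fun X : Matrix (κ ⊕ κ) (κ ⊕ κ) (MonoidAlgebra ℤ G) =>
        (X i j).coeff g) h1
      simp only [Matrix.zero_apply, MonoidAlgebra.coeff_zero, Finsupp.coe_zero,
        Pi.zero_apply] at h3
      rw [Matrix.add_apply, coeff_add', Matrix.smul_apply, coeff_zsmul', coeff_adj] at h3
      exact h3)
  refine ⟨P, D, χ, hD1, hD2, hD3, ?_⟩
  rw [sub_eq_iff_eq_add] at hδ
  rw [hδ]
  abel

end near

end TH6.LF
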