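import Pool.Agent.TH6.LF.Bar
import Pool.Agent.TH57.Thr.Red

set_option autoImplicit false
set_option linter.unusedSectionVars false
set_option linter.style.haveILetI false

/-! Quadratic forms over `ℤΓ`: every form is, after adding a hyperbolic form, isometric to a form
whose adjoint has operator norm close to `3 / √2`. -/

namespace TH6.LF

open Matrix TH57.Thr

variable {G : Type} [Group G]

/-- A linear model of the matrix `B`. -/
def Mod (r γ β : ℝ) {p n : Type} [Fintype p] [Fintype n]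
    (B : Matrix p n (MonoidAlgebra ℤ G)) : Prop :=
  ∃ (q : Type) (_ : Fintype q) (_ : DecidableEq q) (X : Matrix p q (MonoidAlgebra ℤ G))
    (Y : Matrix q n (MonoidAlgebra ℤ G)) (Z W : Matrix q q (MonoidAlgebra ℤ G)),
    Z ∈ El (R := MonoidAlgebra ℤ G) q ∧ Z * W = 1 ∧ W * Z = 1 ∧ -(X * W * Y) = B ∧
    3 ≤ Fintype.card q ∧
    ∀ (x : p → MonoidAlgebra ℝ G) (y : n → MonoidAlgebra ℝ G) (a b : q → MonoidAlgebra ℝ G),
      r * (2 * |ip (x ᵥ* toReal X) a + ip (b ᵥ* toReal Z) a + ip (b ᵥ* toReal Y) y|) ≤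
        β * normSq x + 2 * normSq y + γ * (normSq a + normSq b)

section mod

variable {p n m : Type} [Fintype p] [Fintype n] [Fintype m] [DecidableEq p] [DecidableEq n]
  [DecidableEq m]

theorem Mod.mono {r γ β β' : ℝ} {B : Matrix p n (MonoidAlgebra ℤ G)} (h : Mod r γ β B)
    (hb : β ≤ β') : Mod r γ β' B := by
  obtain ⟨q, i1, i2, X, Y, Z, W, h1, h2, h3, h4, h5, h6⟩ := h
  refine ⟨q, i1, i2, X, Y, Z, W, h1, h2, h3, h4, h5, fun x y a b => (h6 x y a b).trans ?_⟩
  have := mul_le_mul_of_nonneg_right hb (normSq_nonneg x)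
  linarith

theorem rip {r : ℝ} (hr0 : 0 < r) (hr : r ^ 2 = 2) {ι : Type} [Fintype ι]
    (x y : ι → MonoidAlgebra ℝ G) (s : ℝ) (hs : 0 < s) :
    r * (2 * |ip x y|) ≤ s * normSq x + 2 / s * normSq y := by
  have h := two_ip_le x y (s / r) (by positivity)
  have h1 := mul_le_mul_of_nonneg_left h hr0.le
  have h2 : r * (s / r * normSq x + (s / r)⁻¹ * normSq y)
      = s * normSq x + r ^ 2 / s * normSq y := by
    field_simp
  rw [h2, hr] at h1
  exact h1

theorem mod_base {r γ : ℝ} (hr0 : 0 < r) (hr : r ^ 2 = 2) (hγ : 3 ≤ γ)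
    (B : Matrix p n (MonoidAlgebra ℤ G)) (hB : NS B 2) : Mod r γ 2 B := by
  refine ⟨n ⊕ Fin 3, inferInstance, inferInstance, fromCols B 0, fromRows (-1) 0, 1, 1,
    one_mem _, by rw [Matrix.one_mul], by rw [Matrix.one_mul], ?_, by simp, ?_⟩
  · rw [Matrix.mul_one, Matrix.fromCols_mul_fromRows]
    simp
  · intro x y a b
    have e1 : x ᵥ* toReal (fromCols B (0 : Matrix p (Fin 3) (MonoidAlgebra ℤ G)))
        = Sum.elim (x ᵥ* toReal B) 0 := by
      funext j
      rcases j with j | j <;> simp [Matrix.vecMul, dotProduct, toReal]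
    have e2 : toReal (1 : Matrix (n ⊕ Fin 3) (n ⊕ Fin 3) (MonoidAlgebra ℤ G)) = 1 := toReal_one
    have e3 : b ᵥ* toReal (fromRows (-1 : Matrix n n (MonoidAlgebra ℤ G))
        (0 : Matrix (Fin 3) n (MonoidAlgebra ℤ G))) = -(b ∘ Sum.inl) := by
      have h1 : toReal (fromRows (-1 : Matrix n n (MonoidAlgebra ℤ G))
        (0 : Matrix (Fin 3) n (MonoidAlgebra ℤ G))) = fromRows (-1) 0 := by
        ext i j
        rcases i with i | i
        · simp only [toReal, Matrix.map_apply, fromRows_apply_inl, Matrix.neg_apply,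
            Matrix.one_apply]
          split_ifs <;> simp
        · simp [toReal]
      rw [h1, Matrix.vecMul_fromRows, Matrix.vecMul_neg, Matrix.vecMul_one, Matrix.vecMul_zero,
        add_zero]
    rw [e1, e2, Matrix.vecMul_one, e3, ip_elim, ip_elim b a]
    have e4 : (Sum.elim (x ᵥ* toReal B) (0 : Fin 3 → MonoidAlgebra ℝ G)) ∘ Sum.inl
        = x ᵥ* toReal B := rfl
    have e5 : (Sum.elim (x ᵥ* toReal B) (0 : Fin 3 → MonoidAlgebra ℝ G)) ∘ Sum.inr = 0 := rfl
    rw [e4, e5, ip_zero_left, ip_neg_left, normSq_sum a, normSq_sum b]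
    set a1 := a ∘ Sum.inl
    set a2 := a ∘ Sum.inr
    set b1 := b ∘ Sum.inl
    set b2 := b ∘ Sum.inr
    have f1 := rip hr0 hr (x ᵥ* toReal B) a1 1 one_pos
    have f2 := rip hr0 hr b1 a1 2 two_pos
    have f3 := rip hr0 hr b1 y 1 one_pos
    have f4 := rip hr0 hr b2 a2 1 one_pos
    have f5 := hB x
    have g1 := normSq_nonneg a1
    have g2 := normSq_nonneg a2
    have g3 := normSq_nonneg b1
    have g4 := normSq_nonneg b2
    have habs : |ip (x ᵥ* toReal B) a1 + 0 + (ip b1 a1 + ip b2 a2) + -ip b1 y| ≤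
        |ip (x ᵥ* toReal B) a1| + |ip b1 a1| + |ip b2 a2| + |ip b1 y| := by
      have t1 := abs_add_le (ip (x ᵥ* toReal B) a1 + 0 + (ip b1 a1 + ip b2 a2)) (-ip b1 y)
      have t2 := abs_add_le (ip (x ᵥ* toReal B) a1 + 0) (ip b1 a1 + ip b2 a2)
      have t3 := abs_add_le (ip b1 a1) (ip b2 a2)
      rw [abs_neg] at t1
      rw [add_zero] at t2 t1 ⊢
      linarith
    have hm := mul_le_mul_of_nonneg_left habs (show 0 ≤ r * 2 by positivity)
    have h1 : γ * (normSq a1 + normSq a2 + (normSq b1 + normSq b2))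
        ≥ 3 * (normSq a1 + normSq a2 + (normSq b1 + normSq b2)) :=
      mul_le_mul_of_nonneg_right hγ (by positivity)
    norm_num at f1 f2 f3 f4
    nlinarith

theorem el_ext' {κ μ : Type} [Fintype κ] [DecidableEq κ] [Fintype μ] [DecidableEq μ]
    (F : Matrix κ κ (MonoidAlgebra ℤ G)) (hF : F ∈ El (R := MonoidAlgebra ℤ G) κ) :
    fromBlocks (1 : Matrix μ μ (MonoidAlgebra ℤ G)) 0 0 F ∈
      El (R := MonoidAlgebra ℤ G) (μ ⊕ κ) := by
  have h := el_reindex (Equiv.sumComm μ κ) _ (el_ext (μ := μ) F hF)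
  convert h using 1
  ext i j
  rcases i with i | i <;> rcases j with j | j <;> rfl

theorem mod_step {r γ β w : ℝ} (hr0 : 0 < r) (hr : r ^ 2 = 2) (hβ : β < γ)
    (hδ : 0 < γ - 2 / (γ - β)) (P : Matrix m p (MonoidAlgebra ℤ G)) (hP : NS P w)
    (B : Matrix p n (MonoidAlgebra ℤ G)) (h : Mod r γ β B) :
    Mod r γ (2 * w / (γ - 2 / (γ - β))) (P * B) := by
  obtain ⟨q, i1, i2, X, Y, Z, W, h1, h2, h3, h4, h5, h6⟩ := h
  refine ⟨p ⊕ q, inferInstance, inferInstance, fromCols (-P) 0, fromRows 0 Y,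
    fromBlocks 1 X 0 Z, fromBlocks 1 (-(X * W)) 0 W, ?_, ?_, ?_, ?_, ?_, ?_⟩
  · have e : fromBlocks 1 X 0 Z = fromBlocks (1 : Matrix p p (MonoidAlgebra ℤ G)) 0 0 Z
        * (1 + fromBlocks 0 X 0 0) := by
      rw [← Matrix.fromBlocks_one, Matrix.fromBlocks_add, Matrix.fromBlocks_multiply]
      simp
    rw [e]
    refine mul_mem (el_ext' Z h1) (el_unip (Finset.univ.filter fun v : p ⊕ q => v.isLeft) _ ?_)
    rintro (i | i) (j | j) h <;> simp at h ⊢
  · rw [Matrix.fromBlocks_multiply, ← Matrix.fromBlocks_one]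
    simp [h2]
  · rw [Matrix.fromBlocks_multiply, ← Matrix.fromBlocks_one]
    simp [h3, Matrix.mul_assoc]
  · rw [Matrix.fromCols_mul_fromBlocks, Matrix.fromCols_mul_fromRows, ← h4]
    simp [Matrix.mul_assoc]
  · rw [Fintype.card_sum]; omega
  · intro x y a b
    have e1 : x ᵥ* toReal (fromCols (-P) (0 : Matrix m q (MonoidAlgebra ℤ G)))
        = Sum.elim (-(x ᵥ* toReal P)) 0 := by
      have h0 : toReal (fromCols (-P) (0 : Matrix m q (MonoidAlgebra ℤ G)))
          = fromCols (-toReal P) 0 := by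
        ext i j
        rcases j with j | j <;> simp [toReal]
      rw [h0, Matrix.vecMul_fromCols, Matrix.vecMul_neg, Matrix.vecMul_zero]
    have e2 : b ᵥ* toReal (fromBlocks (1 : Matrix p p (MonoidAlgebra ℤ G)) X 0 Z)
        = Sum.elim (b ∘ Sum.inl) ((b ∘ Sum.inl) ᵥ* toReal X + (b ∘ Sum.inr) ᵥ* toReal Z) := by
      rw [toReal_fromBlocks, toReal_one, toReal_zero]
      conv_lhs => rw [← Sum.elim_comp_inl_inr b]
      rw [Matrix.vecMul_fromBlocks]
      simp
    have e3 : b ᵥ* toReal (fromRows (0 : Matrix p n (MonoidAlgebra ℤ G)) Y)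
        = (b ∘ Sum.inr) ᵥ* toReal Y := by
      have h0 : toReal (fromRows (0 : Matrix p n (MonoidAlgebra ℤ G)) Y)
          = fromRows 0 (toReal Y) := by
        ext i j
        rcases i with i | i <;> simp [toReal]
      rw [h0, Matrix.vecMul_fromRows]
      simp
    rw [e1, e2, e3, ip_elim, ip_elim (Sum.elim _ _) a]
    have e4 : (Sum.elim (-(x ᵥ* toReal P)) (0 : q → MonoidAlgebra ℝ G)) ∘ Sum.inl
        = -(x ᵥ* toReal P) := rfl
    have e5 : (Sum.elim (-(x ᵥ* toReal P)) (0 : q → MonoidAlgebra ℝ G)) ∘ Sum.inr = 0 := rfl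
    have e6 : (Sum.elim (b ∘ Sum.inl) ((b ∘ Sum.inl) ᵥ* toReal X + (b ∘ Sum.inr) ᵥ* toReal Z))
        ∘ Sum.inl = b ∘ Sum.inl := rfl
    have e7 : (Sum.elim (b ∘ Sum.inl) ((b ∘ Sum.inl) ᵥ* toReal X + (b ∘ Sum.inr) ᵥ* toReal Z))
        ∘ Sum.inr = (b ∘ Sum.inl) ᵥ* toReal X + (b ∘ Sum.inr) ᵥ* toReal Z := rfl
    rw [e4, e5, e6, e7, ip_zero_left, ip_neg_left, normSq_sum a, normSq_sum b, ip_add_left]
    set a1 := a ∘ Sum.inl
    set a2 := a ∘ Sum.inr
    set b1 := b ∘ Sum.inl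
    set b2 := b ∘ Sum.inr
    have f0 := h6 b1 y a2 b2
    have hγβ : 0 < γ - β := by linarith
    have f1 := rip hr0 hr b1 a1 (γ - β) hγβ
    have f2 := rip hr0 hr (x ᵥ* toReal P) a1 (2 / (γ - 2 / (γ - β))) (by positivity)
    have f3 := hP x
    set δ := γ - 2 / (γ - β) with hδd
    have f4 : 2 / (2 / δ) = δ := by field_simp
    rw [f4] at f2
    have f5 : 2 / δ * normSq (x ᵥ* toReal P) ≤ 2 * w / δ * normSq x := by
      have := mul_le_mul_of_nonneg_left f3 (show 0 ≤ 2 / δ by positivity)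
      calc _ ≤ 2 / δ * (w * normSq x) := this
        _ = _ := by ring
    have habs : |-ip (x ᵥ* toReal P) a1 + 0 + (ip b1 a1 + (ip (b1 ᵥ* toReal X) a2
        + ip (b2 ᵥ* toReal Z) a2)) + ip (b2 ᵥ* toReal Y) y| ≤
        |ip (x ᵥ* toReal P) a1| + |ip b1 a1| + |ip (b1 ᵥ* toReal X) a2
        + ip (b2 ᵥ* toReal Z) a2 + ip (b2 ᵥ* toReal Y) y| := by
      have t1 := abs_add_le (-ip (x ᵥ* toReal P) a1) (ip b1 a1 + (ip (b1 ᵥ* toReal X) a2
        + ip (b2 ᵥ* toReal Z) a2 + ip (b2 ᵥ* toReal Y) y))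
      have t2 := abs_add_le (ip b1 a1) (ip (b1 ᵥ* toReal X) a2
        + ip (b2 ᵥ* toReal Z) a2 + ip (b2 ᵥ* toReal Y) y)
      rw [abs_neg] at t1
      have t3 : -ip (x ᵥ* toReal P) a1 + 0 + (ip b1 a1 + (ip (b1 ᵥ* toReal X) a2
        + ip (b2 ᵥ* toReal Z) a2)) + ip (b2 ᵥ* toReal Y) y
        = -ip (x ᵥ* toReal P) a1 + (ip b1 a1 + (ip (b1 ᵥ* toReal X) a2
        + ip (b2 ᵥ* toReal Z) a2 + ip (b2 ᵥ* toReal Y) y)) := by ring
      rw [t3]
      linarith
    have hm := mul_le_mul_of_nonneg_left habs (show 0 ≤ r * 2 by positivity)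
    have h7 : δ * normSq a1 = γ * normSq a1 - 2 / (γ - β) * normSq a1 := by
      rw [hδd]; ring
    rw [h7] at f2
    linarith

theorem mod_reduce {r γ : ℝ} (hr0 : 0 < r) (hr : r ^ 2 = 2) (hγ : 3 < γ)
    (B : Matrix p n (MonoidAlgebra ℤ G)) (h : Mod r γ 2 B) : Mod r γ 1 B := by
  set η : ℝ := (γ - 3) / ((γ - 2) * (γ + 1)) with hη
  have hη0 : 0 < η := div_pos (by linarith) (mul_pos (by linarith) (by linarith))
  have key : ∀ k : ℕ, ∀ β : ℝ, β ≤ 2 → β ≤ 1 + k * η → Mod r γ β B → Mod r γ 1 B := by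
    intro k
    induction k with
    | zero =>
      intro β _ hb hB
      exact hB.mono (by simpa using hb)
    | succ k ih =>
      intro β hβ2 hb hB
      by_cases h1 : β ≤ 1
      · exact hB.mono h1
      push Not at h1
      have hγβ : 0 < γ - β := by linarith
      have hD : 0 < γ * (γ - β) - 2 := by nlinarith
      have hδ : γ - 2 / (γ - β) = (γ * (γ - β) - 2) / (γ - β) := by
        field_simp
      have hδ0 : 0 < γ - 2 / (γ - β) := by rw [hδ]; positivity
      have hstep := mod_step hr0 hr (by linarith) hδ0 (1 : Matrix p p (MonoidAlgebra ℤ G))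
        (NS_one (G := G)) B hB
      rw [Matrix.one_mul, mul_one, hδ] at hstep
      have hval : 2 / ((γ * (γ - β) - 2) / (γ - β)) = 2 * (γ - β) / (γ * (γ - β) - 2) := by
        field_simp
      rw [hval] at hstep
      have hle : 2 * (γ - β) / (γ * (γ - β) - 2) ≤ β - η := by
        have h2 : (γ - 3) / ((γ - 2) * (γ + 1)) ≤ (γ - 3) / (γ * (γ - β) - 2) := by
          apply div_le_div_of_nonneg_left (by linarith) hD
          nlinarith
        have h3 : 2 * (γ - β) / (γ * (γ - β) - 2) + (γ - 3) / (γ * (γ - β) - 2) ≤ β := by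
          rw [← add_div, div_le_iff₀ hD]
          nlinarith [mul_nonneg (show 0 ≤ β - 1 by linarith) (show 0 ≤ 2 - β by linarith),
            mul_nonneg (mul_nonneg (show 0 ≤ β - 1 by linarith) (show 0 ≤ 2 - β by linarith))
              (show 0 ≤ γ by linarith),
            mul_nonneg (show 0 ≤ γ - 3 by linarith) (show 0 ≤ β - 1 by linarith),
            mul_nonneg (mul_nonneg (show 0 ≤ γ - 3 by linarith) (show 0 ≤ β - 1 by linarith))
              (show 0 ≤ γ by linarith)]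
        linarith
      refine ih _ (by linarith) ?_ hstep
      push_cast at hb
      linarith
  obtain ⟨k, hk⟩ := exists_nat_gt (1 / η)
  refine key k 2 le_rfl ?_ h
  rw [div_lt_iff₀ hη0] at hk
  linarith

theorem mod_of_Pr {r γ : ℝ} (hr0 : 0 < r) (hr : r ^ 2 = 2) (hγ : 3 < γ) :
    ∀ (k : ℕ) (p n : Type) [Fintype p] [Fintype n] [DecidableEq p] [DecidableEq n]
      (B : Matrix p n (MonoidAlgebra ℤ G)), Pr k p n B → Mod r γ 1 B := by
  intro k
  induction k with
  | zero =>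
    intro p n _ _ _ _ B h
    exact mod_reduce hr0 hr hγ B (mod_base hr0 hr hγ.le B h)
  | succ k ih =>
    intro p n _ _ _ _ B h
    obtain ⟨r', i1, i2, P, C, hP, hC, rfl⟩ := h
    have h1 := ih r' n C hC
    have h2 : γ - 2 / (γ - 1) ≥ 2 := by
      have h3 : 0 < γ - 1 := by linarith
      have : 2 / (γ - 1) ≤ 1 := by rw [div_le_one h3]; linarith
      linarith
    have h3 := mod_step hr0 hr (by linarith) (by linarith) P hP C h1
    refine mod_reduce hr0 hr hγ _ (h3.mono ?_)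
    rw [div_le_iff₀ (by linarith)]
    linarith

theorem mod_all {r γ : ℝ} (hr0 : 0 < r) (hr : r ^ 2 = 2) (hγ : 3 < γ)
    (B : Matrix p n (MonoidAlgebra ℤ G)) : Mod r γ 1 B := by
  obtain ⟨k, hk⟩ := Pr_all B
  exact mod_of_Pr hr0 hr hγ k p n B hk

end mod

end TH6.LF
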